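import Mathlib

/-!
# Test sets at one scale: a union bound over all thin sets
-/

set_option autoImplicit false

open Finset

namespace Pool.Agent.H38.SP

/-- `r_A(n)`: the number of ordered pairs of elements of `A` with sum `n` -/
noncomputable def rep (A : Set ℕ) (n : ℕ) : ℕ :=
  {p : ℕ × ℕ | p.1 ∈ A ∧ p.2 ∈ A ∧ p.1 + p.2 = n}.ncard

/-- the number of elements of `A` below `x` -/
noncomputable def cnt (A : Set ℕ) (x : ℕ) : ℕ := (A ∩ Set.Iio x).ncard

lemma exists_test (I : Finset ℕ) (G : Finset (Finset ℕ)) (T m : ℕ) (hT : 1 ≤ T)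
    (hsub : ∀ g ∈ G, g ⊆ I) (hm : (G.card : ℝ) * Real.exp (-((m : ℝ) / T)) < 1) :
    ∃ S : Finset ℕ, S ⊆ I ∧ S.card ≤ m ∧ ∀ g ∈ G, S ⊆ g → T * (I \ g).card ≤ I.card := by
  classical
  rcases I.eq_empty_or_nonempty with hI | hI
  · subst hI
    refine ⟨∅, subset_rfl, by simp, fun g hg _ => ?_⟩
    have : g = ∅ := subset_empty.mp (hsub g hg)
    simp [this]
  by_contra hcon
  push Not at hcon
  have hIpos : (0 : ℝ) < I.card := by exact_mod_cast hI.card_pos
  have hT0 : (0 : ℝ) < T := by exact_mod_cast hT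
  set bad := G.filter (fun g => I.card < T * (I \ g).card) with hbad
  have h1 : Fintype.piFinset (fun _ : Fin m => I) ⊆
      bad.biUnion (fun g => Fintype.piFinset (fun _ : Fin m => g)) := by
    intro f hf
    rw [Fintype.mem_piFinset] at hf
    obtain ⟨g, hg, hSg, hlt⟩ := hcon (univ.image f) (by
      intro y hy
      obtain ⟨i, -, rfl⟩ := mem_image.1 hy
      exact hf i) (by
      refine card_image_le.trans ?_
      simp)
    rw [mem_biUnion]
    refine ⟨g, mem_filter.2 ⟨hg, hlt⟩, ?_⟩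
    rw [Fintype.mem_piFinset]
    intro i
    exact hSg (mem_image_of_mem f (mem_univ i))
  have h2 : I.card ^ m ≤ ∑ g ∈ bad, g.card ^ m := by
    calc I.card ^ m = (Fintype.piFinset (fun _ : Fin m => I)).card := by
          rw [Fintype.card_piFinset]; simp
      _ ≤ _ := card_le_card h1
      _ ≤ ∑ g ∈ bad, (Fintype.piFinset (fun _ : Fin m => g)).card := card_biUnion_le
      _ = ∑ g ∈ bad, g.card ^ m := by
          refine sum_congr rfl fun g _ => ?_
          rw [Fintype.card_piFinset]; simp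
  have h3 : ∀ g ∈ bad, ((g.card : ℝ)) ^ m ≤ (I.card : ℝ) ^ m * Real.exp (-((m : ℝ) / T)) := by
    intro g hg
    obtain ⟨hg1, hg2⟩ := mem_filter.1 hg
    have h4 : (I \ g).card + g.card = I.card := card_sdiff_add_card_eq_card (hsub g hg1)
    have h5 : (g.card : ℝ) ≤ I.card * (1 - 1 / T) := by
      have h6 : (I.card : ℝ) < T * (I \ g).card := by exact_mod_cast hg2
      have h7 : ((I \ g).card : ℝ) + g.card = I.card := by exact_mod_cast h4
      have h8 : (I.card : ℝ) / T ≤ (I \ g).card := by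
        rw [div_le_iff₀ hT0]; linarith
      have h9 : (I.card : ℝ) * (1 - 1 / T) = I.card - I.card / T := by ring
      rw [h9]; linarith
    have h6 : (g.card : ℝ) ≤ I.card * Real.exp (-(1 / T)) := by
      refine h5.trans (mul_le_mul_of_nonneg_left ?_ hIpos.le)
      have := Real.add_one_le_exp (-(1 / (T : ℝ)))
      linarith
    calc ((g.card : ℝ)) ^ m ≤ (I.card * Real.exp (-(1 / T))) ^ m :=
          pow_le_pow_left₀ (Nat.cast_nonneg _) h6 m
      _ = (I.card : ℝ) ^ m * Real.exp (-((m : ℝ) / T)) := by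
          rw [mul_pow, ← Real.exp_nat_mul]
          congr 2
          ring
  have h4 : (I.card : ℝ) ^ m ≤ G.card * ((I.card : ℝ) ^ m * Real.exp (-((m : ℝ) / T))) := by
    calc (I.card : ℝ) ^ m ≤ ∑ g ∈ bad, (g.card : ℝ) ^ m := by exact_mod_cast h2
      _ ≤ ∑ g ∈ bad, (I.card : ℝ) ^ m * Real.exp (-((m : ℝ) / T)) := sum_le_sum h3
      _ = bad.card * ((I.card : ℝ) ^ m * Real.exp (-((m : ℝ) / T))) := by
          rw [sum_const, nsmul_eq_mul]
      _ ≤ _ := by
          apply mul_le_mul_of_nonneg_right _ (by positivity)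
          exact_mod_cast card_le_card (filter_subset _ _)
  have h5 : (0 : ℝ) < (I.card : ℝ) ^ m := by positivity
  nlinarith

lemma rep_lt_congr (A B : Set ℕ) (Y n : ℕ) (hn : n < Y) (h : ∀ a < Y, a ∈ A ↔ a ∈ B) :
    rep A n = rep B n := by
  unfold rep
  congr 1
  ext ⟨a, b⟩
  simp only [Set.mem_setOf_eq]
  constructor
  · rintro ⟨h1, h2, h3⟩
    exact ⟨(h a (by omega)).1 h1, (h b (by omega)).1 h2, h3⟩
  · rintro ⟨h1, h2, h3⟩
    exact ⟨(h a (by omega)).2 h1, (h b (by omega)).2 h2, h3⟩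

open Classical in
/-- a test set for one scale and a family of sets -/
theorem scale_test_fam (k H V T : ℕ) (hT : 1 ≤ T) (𝓑 : Finset (Finset ℕ))
    (h𝓑 : (𝓑.card : ℝ) ≤ Real.exp H) :
    ∃ S : Finset ℕ, S ⊆ Ico (2 ^ k) (2 ^ (k + 1)) ∧ S.card ≤ T * (H + V + 1) ∧
      ∀ A : Set ℕ, (∃ B ∈ 𝓑, ∀ a < 2 ^ (k + 1), a ∈ A ↔ a ∈ B) → ∀ v ≤ V,
        (∀ s ∈ S, v ≤ rep A s) →
        T * ((Ico (2 ^ k) (2 ^ (k + 1))).filter (fun n => rep A n < v)).card ≤ 2 ^ k := by
  set Y := 2 ^ (k + 1) with hY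
  set I := Ico (2 ^ k) Y with hI
  set G : Finset (Finset ℕ) := (𝓑 ×ˢ range (V + 1)).image
    (fun p => I.filter (fun n => p.2 ≤ rep (p.1 : Set ℕ) n)) with hG
  have hGcard : (G.card : ℝ) ≤ Real.exp (H + V) := by
    have h1 : G.card ≤ 𝓑.card * (V + 1) := by
      refine card_image_le.trans ?_
      rw [card_product, card_range]
    have h2 : (G.card : ℝ) ≤ 𝓑.card * (V + 1) := by exact_mod_cast h1
    rw [Real.exp_add]
    refine h2.trans ?_
    have h5 : ((V : ℝ) + 1) ≤ Real.exp V := Real.add_one_le_exp _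
    exact mul_le_mul h𝓑 h5 (by positivity) (Real.exp_pos _).le
  have hIc : I.card = 2 ^ k := by
    rw [hI, Nat.card_Ico, hY, pow_succ]; omega
  obtain ⟨S, hS1, hS2, hS3⟩ := exists_test I G T (T * (H + V + 1)) hT (by
    intro g hg
    obtain ⟨p, -, rfl⟩ := mem_image.1 hg
    exact filter_subset _ _) (by
    have hT0 : (0 : ℝ) < T := by exact_mod_cast hT
    have h1 : ((T * (H + V + 1) : ℕ) : ℝ) / T = (H + V + 1 : ℝ) := by
      push_cast
      field_simp
    rw [h1]
    calc (G.card : ℝ) * Real.exp (-(H + V + 1 : ℝ)) ≤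
          Real.exp (H + V) * Real.exp (-(H + V + 1 : ℝ)) :=
          mul_le_mul_of_nonneg_right hGcard (Real.exp_pos _).le
      _ = Real.exp (-1) := by rw [← Real.exp_add]; ring_nf
      _ < 1 := by
          rw [Real.exp_lt_one_iff]
          norm_num)
  refine ⟨S, hS1, hS2, ?_⟩
  rintro A ⟨B, hB𝓑, hmem⟩ v hv hs
  have hrep : ∀ n ∈ I, rep A n = rep (B : Set ℕ) n := fun n hn =>
    rep_lt_congr A B Y n (mem_Ico.1 hn).2 hmem
  have hg : I.filter (fun n => v ≤ rep (B : Set ℕ) n) ∈ G := by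
    rw [hG, mem_image]
    exact ⟨(B, v), by rw [mem_product, mem_range]; exact ⟨hB𝓑, by simp only; omega⟩, rfl⟩
  have h1 := hS3 _ hg (by
    intro s hsS
    rw [mem_filter]
    refine ⟨hS1 hsS, ?_⟩
    rw [← hrep s (hS1 hsS)]
    exact hs s hsS)
  rw [hIc] at h1
  refine le_trans (Nat.mul_le_mul_left _ (card_le_card ?_)) h1
  intro n hn
  rw [mem_filter] at hn
  rw [mem_sdiff, mem_filter]
  refine ⟨hn.1, fun h => ?_⟩
  rw [hrep n hn.1] at hn
  omega

end Pool.Agent.H38.SP
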