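import Pool.Agent.H38.SP.A

/-!
# Sizes of unions of sets over dyadic scales; thin sets
-/

set_option autoImplicit false

open Finset

namespace Pool.Agent.H38.SP

lemma cnt_eq_card (A : Set ℕ) (x : ℕ) [DecidablePred (· ∈ A)] :
    cnt A x = ((range x).filter (· ∈ A)).card := by
  unfold cnt
  rw [← Set.ncard_coe_finset]
  congr 1
  ext a
  simp only [Set.mem_inter_iff, Set.mem_Iio, coe_filter, mem_range, Set.mem_setOf_eq]
  tauto

/-- the set obtained from its parts in the dyadic intervals -/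
def glue (S : ℕ → Finset ℕ) : Set ℕ := {s | ∃ k, s ∈ S k}

lemma cnt_glue (S : ℕ → Finset ℕ) (hS : ∀ k, S k ⊆ Ico (2 ^ k) (2 ^ (k + 1))) (x : ℕ) :
    cnt (glue S) x ≤ ∑ k ∈ range (Nat.clog 2 x), (S k).card := by
  classical
  rw [cnt_eq_card]
  calc _ ≤ ((range (Nat.clog 2 x)).biUnion S).card := by
        apply card_le_card
        intro s hs
        rw [mem_filter, mem_range] at hs
        obtain ⟨hsx, k, hk⟩ := hs
        rw [mem_biUnion]
        refine ⟨k, ?_, hk⟩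
        rw [mem_range]
        have h1 := (mem_Ico.1 (hS k hk)).1
        by_contra hcon
        push Not at hcon
        have h2 : x ≤ 2 ^ Nat.clog 2 x := Nat.le_pow_clog (by norm_num) x
        have h3 : 2 ^ Nat.clog 2 x ≤ 2 ^ k := Nat.pow_le_pow_right (by norm_num) hcon
        omega
    _ ≤ _ := card_biUnion_le

lemma sqrt2_sum (K : ℕ) : ∑ k ∈ range K, (Real.sqrt 2) ^ k ≤ 3 * (Real.sqrt 2) ^ K := by
  have h2 : (4 / 3 : ℝ) ≤ Real.sqrt 2 := by
    apply Real.le_sqrt_of_sq_le; norm_num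
  induction K with
  | zero => simp
  | succ K ih =>
    rw [sum_range_succ, pow_succ]
    have h3 : 0 ≤ (Real.sqrt 2) ^ K := by positivity
    nlinarith

lemma two_half_le (k : ℕ) : ((2 : ℝ) ^ ((k + 2) / 2)) ≤ 2 * (Real.sqrt 2) ^ k := by
  have h1 : (2 : ℝ) = Real.sqrt 2 ^ 2 := (Real.sq_sqrt (by norm_num)).symm
  have h2 : (1 : ℝ) ≤ Real.sqrt 2 := by
    apply Real.le_sqrt_of_sq_le; norm_num
  calc ((2 : ℝ) ^ ((k + 2) / 2)) = (Real.sqrt 2 ^ 2) ^ ((k + 2) / 2) := by rw [← h1]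
    _ = (Real.sqrt 2) ^ (2 * ((k + 2) / 2)) := by rw [← pow_mul]
    _ ≤ (Real.sqrt 2) ^ (k + 2) := pow_le_pow_right₀ h2 (by omega)
    _ = 2 * (Real.sqrt 2) ^ k := by rw [pow_add, Real.sq_sqrt (by norm_num)]; ring

lemma half_ge_sqrt (k : ℕ) : Real.sqrt (2 ^ (k + 1)) ≤ (2 : ℝ) ^ ((k + 2) / 2) := by
  rw [Real.sqrt_le_left (by positivity), ← pow_mul]
  exact pow_le_pow_right₀ (by norm_num) (by omega)

lemma clog_le (x : ℕ) (hx : 2 ≤ x) : (Nat.clog 2 x : ℝ) + 2 ≤ 6 * Real.log x := by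
  have h1 : 2 ^ (Nat.clog 2 x - 1) < x := by
    have := Nat.pow_pred_clog_lt_self (b := 2) (by norm_num) (by omega : 1 < x)
    simpa [Nat.pred_eq_sub_one] using this
  have h2 : 1 ≤ Nat.clog 2 x := Nat.clog_pos (by norm_num) hx
  have h3 : ((Nat.clog 2 x - 1 : ℕ) : ℝ) * Real.log 2 ≤ Real.log x := by
    rw [← Real.log_pow]
    apply Real.log_le_log (by positivity)
    exact_mod_cast h1.le
  rw [Nat.cast_sub h2] at h3
  have h4 : (0.69 : ℝ) ≤ Real.log 2 := by linarith [Real.log_two_gt_d9]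
  have h5 : Real.log 2 ≤ Real.log x := Real.log_le_log (by norm_num) (by exact_mod_cast hx)
  have h6 : (1 : ℝ) ≤ Nat.clog 2 x := by exact_mod_cast h2
  push_cast at h3
  nlinarith

lemma sqrt2_pow_clog (x : ℕ) (hx : 2 ≤ x) :
    (Real.sqrt 2) ^ Nat.clog 2 x ≤ Real.sqrt 2 * Real.sqrt x := by
  have h1 : 2 ^ (Nat.clog 2 x - 1) < x := by
    have := Nat.pow_pred_clog_lt_self (b := 2) (by norm_num) (by omega : 1 < x)
    simpa [Nat.pred_eq_sub_one] using this
  have h2 : 1 ≤ Nat.clog 2 x := Nat.clog_pos (by norm_num) hx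
  have h3 : 2 ^ Nat.clog 2 x ≤ 2 * x := by
    have : 2 ^ Nat.clog 2 x = 2 * 2 ^ (Nat.clog 2 x - 1) := by
      rw [← pow_succ']; congr 1; omega
    omega
  have h4 : (Real.sqrt 2) ^ Nat.clog 2 x = Real.sqrt (2 ^ Nat.clog 2 x) := by
    rw [Real.sqrt_eq_rpow, Real.sqrt_eq_rpow, ← Real.rpow_natCast, ← Real.rpow_natCast,
      ← Real.rpow_mul (by norm_num), ← Real.rpow_mul (by norm_num), mul_comm]
  rw [h4, ← Real.sqrt_mul (by norm_num)]
  apply Real.sqrt_le_sqrt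
  exact_mod_cast h3

/-- sizes -/
theorem size_bound (S : ℕ → Finset ℕ) (hS : ∀ k, S k ⊆ Ico (2 ^ k) (2 ^ (k + 1)))
    (c0 : ℝ) (hc0 : 0 ≤ c0) (D : ℕ)
    (hc : ∀ k, ((S k).card : ℝ) ≤ c0 * ((k : ℝ) + 2) ^ D * 2 ^ ((k + 2) / 2)) (x : ℕ) (hx : 2 ≤ x) :
    (cnt (glue S) x : ℝ) ≤ 12 * c0 * (6 * Real.log x) ^ D * Real.sqrt x := by
  set K := Nat.clog 2 x with hK
  have h1 : (cnt (glue S) x : ℝ) ≤ ∑ k ∈ range K, ((S k).card : ℝ) := by
    exact_mod_cast cnt_glue S hS x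
  have h2 : ∀ k ∈ range K, ((S k).card : ℝ) ≤ 2 * c0 * ((K : ℝ) + 2) ^ D * (Real.sqrt 2) ^ k := by
    intro k hk
    have hk' : (k : ℝ) ≤ K := by exact_mod_cast (mem_range.1 hk).le
    calc ((S k).card : ℝ) ≤ c0 * ((k : ℝ) + 2) ^ D * 2 ^ ((k + 2) / 2) := hc k
      _ ≤ c0 * ((K : ℝ) + 2) ^ D * (2 * (Real.sqrt 2) ^ k) := by
          apply mul_le_mul _ (two_half_le k) (by positivity) (by positivity)
          apply mul_le_mul_of_nonneg_left _ hc0
          apply pow_le_pow_left₀ (by positivity)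
          linarith
      _ = _ := by ring
  have h3 : ∑ k ∈ range K, ((S k).card : ℝ) ≤ 2 * c0 * ((K : ℝ) + 2) ^ D *
      (3 * (Real.sqrt 2) ^ K) := by
    refine (sum_le_sum h2).trans ?_
    rw [← mul_sum]
    exact mul_le_mul_of_nonneg_left (sqrt2_sum K) (by positivity)
  have h4 : ((K : ℝ) + 2) ^ D ≤ (6 * Real.log x) ^ D :=
    pow_le_pow_left₀ (by positivity) (clog_le x hx) D
  have h5 := sqrt2_pow_clog x hx
  have h6 : Real.sqrt 2 ≤ 2 := by
    rw [Real.sqrt_le_left (by norm_num)]; norm_num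
  have hlog : 0 ≤ Real.log x := Real.log_natCast_nonneg x
  calc (cnt (glue S) x : ℝ) ≤ 2 * c0 * ((K : ℝ) + 2) ^ D * (3 * (Real.sqrt 2) ^ K) := h1.trans h3
    _ ≤ 2 * c0 * (6 * Real.log x) ^ D * (3 * (2 * Real.sqrt x)) := by
        apply mul_le_mul _ _ (by positivity) (by positivity)
        · exact mul_le_mul_of_nonneg_left h4 (by positivity)
        · apply mul_le_mul_of_nonneg_left _ (by norm_num)
          exact h5.trans (mul_le_mul_of_nonneg_right h6 (Real.sqrt_nonneg _))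
    _ = _ := by ring

/-- the elements in an interval, from the representations of their sums -/
lemma card_sq_le (A : Set ℕ) (F : Finset ℕ) (hF : ∀ a ∈ F, a ∈ A) (x y R : ℕ)
    (hx : ∀ a ∈ F, x ≤ a) (hy : ∀ a ∈ F, a < y) (hR : ∀ n, x ≤ n → n < 2 * y → rep A n ≤ R) :
    F.card ^ 2 ≤ 2 * y * R := by
  classical
  have h1 : (F ×ˢ F).card = ∑ n ∈ Ico x (2 * y),
      ((F ×ˢ F).filter (fun p => p.1 + p.2 = n)).card := by
    apply card_eq_sum_card_fiberwise
    intro p hp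
    rw [mem_coe, mem_product] at hp
    show p.1 + p.2 ∈ ((Ico x (2 * y) : Finset ℕ) : Set ℕ)
    rw [mem_coe, mem_Ico]
    have h1 := hx _ hp.1
    have h3 := hy _ hp.1
    have h4 := hy _ hp.2
    omega
  have h2 : ∀ n ∈ Ico x (2 * y), ((F ×ˢ F).filter (fun p => p.1 + p.2 = n)).card ≤ R := by
    intro n hn
    rw [mem_Ico] at hn
    refine le_trans ?_ (hR n hn.1 hn.2)
    unfold rep
    rw [← Set.ncard_coe_finset]
    apply Set.ncard_le_ncard
    · intro p hp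
      rw [mem_coe, mem_filter, mem_product] at hp
      exact ⟨hF _ hp.1.1, hF _ hp.1.2, hp.2⟩
    · apply Set.Finite.subset (Finset.finite_toSet (antidiagonal n))
      rintro ⟨a, b⟩ ⟨-, -, h⟩
      rw [mem_coe, HasAntidiagonal.mem_antidiagonal]
      exact h
  rw [pow_two, ← card_product, h1]
  refine (sum_le_sum h2).trans ?_
  rw [sum_const, Nat.card_Ico, smul_eq_mul]
  exact Nat.mul_le_mul_right _ (by omega)

lemma cnt_le_of_rep (A : Set ℕ) (x y R : ℕ) (hxy : x ^ 2 ≤ y)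
    (hR : ∀ n, x ≤ n → n < 2 * y → rep A n ≤ R) :
    (cnt A y : ℝ) ≤ (2 * R + 2) * Real.sqrt y := by
  classical
  rw [cnt_eq_card]
  have h1 : ((range y).filter (· ∈ A)) ⊆ range x ∪ (Ico x y).filter (· ∈ A) := by
    intro a ha
    rw [mem_filter, mem_range] at ha
    rw [mem_union, mem_range, mem_filter, mem_Ico]
    by_cases h : a < x
    · exact Or.inl h
    · exact Or.inr ⟨⟨by omega, ha.1⟩, ha.2⟩
  have h2 : ((range y).filter (· ∈ A)).card ≤ x + ((Ico x y).filter (· ∈ A)).card := by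
    refine (card_le_card h1).trans ((card_union_le _ _).trans ?_)
    rw [card_range]
  have h3 := card_sq_le A ((Ico x y).filter (· ∈ A)) (fun a ha => (mem_filter.1 ha).2) x y R
    (fun a ha => (mem_Ico.1 (mem_filter.1 ha).1).1) (fun a ha => (mem_Ico.1 (mem_filter.1 ha).1).2)
    hR
  set f := ((Ico x y).filter (· ∈ A)).card
  have h4 : (x : ℝ) ≤ Real.sqrt y := by
    apply Real.le_sqrt_of_sq_le
    exact_mod_cast hxy
  have h5 : (f : ℝ) ≤ (2 * R + 1) * Real.sqrt y := by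
    have h6 : (f : ℝ) ^ 2 ≤ 2 * y * R := by exact_mod_cast h3
    apply le_of_sq_le_sq _ (by positivity)
    rw [mul_pow, Real.sq_sqrt (by positivity)]
    have h7 : (0 : ℝ) ≤ y := by positivity
    have h8 : (0 : ℝ) ≤ R := by positivity
    nlinarith [mul_nonneg h7 h8, mul_nonneg h7 (mul_nonneg h8 h8)]
  have h6 : (((range y).filter (· ∈ A)).card : ℝ) ≤ x + f := by exact_mod_cast h2
  linarith

end Pool.Agent.H38.SP
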