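import Pool.Agent.H38.SP.I
import Pool.Agent.H21.ET.Cor

/-!
# A sparse set of targets forces large representation numbers
-/

set_option autoImplicit false

open Finset

namespace Pool.Agent.H38.SP

/-- the condition on `l` and `g` -/
def Close (l g : ℕ) : Prop :=
  1 ≤ l ∧ l ≤ g ∧ ((l : ℝ) + g - 1369 / 2520) ^ 2 < 4 * l * g

open Classical in
theorem law (l g : ℕ) (h : Close l g) : ∃ δ : ℝ, 0 < δ ∧ ∃ C : ℝ, ∀ (A : Set ℕ) (x N : ℕ),
    1 ≤ x → x ^ 2 ≤ N → δ * Real.log ((N : ℝ) / (x : ℝ) ^ 2) - C ≤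
      ∑ n ∈ (Icc (x ^ 2) N).filter (fun n => rep A n ≤ 2 * l - 2), 1 / (n : ℝ) +
      ∑ n ∈ (Icc x N).filter (fun n => 2 * g + 2 ≤ rep A n), (rep A n : ℝ) ^ 2 / (n : ℝ) := by
  exact Pool.Agent.H21.ET.lawX l g h.1 h.2.1 h.2.2

open Classical in
/-- the reciprocal sum over the bad numbers of one scale -/
lemma block_sum (A : Set ℕ) (v k T : ℕ) (hT : 1 ≤ T)
    (h : T * ((Ico (2 ^ k) (2 ^ (k + 1))).filter (fun n => rep A n < v)).card ≤ 2 ^ k) :
    ∑ n ∈ (Ico (2 ^ k) (2 ^ (k + 1))).filter (fun n => rep A n < v), 1 / (n : ℝ) ≤ 1 / T := by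
  have h1 : ∀ n ∈ (Ico (2 ^ k) (2 ^ (k + 1))).filter (fun n => rep A n < v),
      1 / (n : ℝ) ≤ 1 / 2 ^ k := by
    intro n hn
    have := (mem_Ico.1 (mem_filter.1 hn).1).1
    apply one_div_le_one_div_of_le (by positivity)
    exact_mod_cast this
  refine (sum_le_sum h1).trans ?_
  rw [sum_const, nsmul_eq_mul]
  have hT0 : (0 : ℝ) < T := by exact_mod_cast hT
  have h2 : (T : ℝ) * ((Ico (2 ^ k) (2 ^ (k + 1))).filter (fun n => rep A n < v)).card ≤ 2 ^ k := by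
    exact_mod_cast h
  rw [mul_one_div, div_le_div_iff₀ (by positivity) hT0]
  linarith

open Classical in
/-- the reciprocal sum over `[2 ^ a, 2 ^ (a + j))` -/
lemma blocks_sum (A : Set ℕ) (v T a : ℕ) (hT : 1 ≤ T) (j : ℕ)
    (h : ∀ k, a ≤ k → k < a + j →
      T * ((Ico (2 ^ k) (2 ^ (k + 1))).filter (fun n => rep A n < v)).card ≤ 2 ^ k) :
    ∑ n ∈ (Ico (2 ^ a) (2 ^ (a + j))).filter (fun n => rep A n < v), 1 / (n : ℝ) ≤ j / T := by
  induction j with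
  | zero => simp
  | succ j ih =>
    have h1 : Ico (2 ^ a) (2 ^ (a + (j + 1))) = Ico (2 ^ a) (2 ^ (a + j)) ∪
        Ico (2 ^ (a + j)) (2 ^ (a + j + 1)) := by
      rw [Ico_union_Ico_eq_Ico]
      · rfl
      · exact Nat.pow_le_pow_right (by norm_num) (by omega)
      · exact Nat.pow_le_pow_right (by norm_num) (by omega)
    rw [h1, filter_union, sum_union]
    · have h2 := ih (fun k h3 h4 => h k h3 (by omega))
      have h3 := block_sum A v (a + j) T hT (h (a + j) (by omega) (by omega))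
      push_cast
      rw [add_div]
      linarith
    · apply disjoint_filter_filter
      rw [disjoint_left]
      intro n h2 h3
      rw [mem_Ico] at h2 h3
      omega

open Classical in
/-- **From the scales to windows.** -/
theorem local_of_scales (l g : ℕ) (hlg : Close l g) :
    ∃ T L : ℕ, 1 ≤ T ∧ ∀ (S : Set ℕ) (k0 : ℕ),
      (∀ k, k0 ≤ k → ∀ A : Set ℕ, Calm (2 * g + 1) k A →
        (∀ s ∈ S, s ∈ Ico (2 ^ k) (2 ^ (k + 1)) → 2 * l - 1 ≤ rep A s) →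
        T * ((Ico (2 ^ k) (2 ^ (k + 1))).filter (fun n => rep A n < 2 * l - 1)).card ≤ 2 ^ k) →
      ∀ (A : Set ℕ) (x : ℕ), 1 ≤ x → 2 ^ k0 ≤ x ^ 2 →
        (∃ s ∈ S, x ^ 2 ≤ s ∧ s ≤ L * x ^ 2 ∧ rep A s ≤ 2 * l - 2) ∨
        (∃ n, x ≤ n ∧ n ≤ L * x ^ 2 ∧ 2 * g + 2 ≤ rep A n) := by
  obtain ⟨δ, hδ, C0, hlaw⟩ := law l g hlg
  have hl : 1 ≤ l := hlg.1
  obtain ⟨T, hT⟩ := exists_nat_gt (4 / δ)
  have hT0 : (0 : ℝ) < T := lt_trans (by positivity) hT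
  have hT1 : 1 ≤ T := by exact_mod_cast hT0
  set V := 2 * l - 1 with hV
  obtain ⟨j, hj⟩ := exists_nat_gt (4 * (2 + |C0|) / δ)
  refine ⟨T, 2 ^ (j + 2), hT1, ?_⟩
  intro S k0 hS3 A x hx hxk
  by_contra hcon
  push Not at hcon
  obtain ⟨hc1, hc2⟩ := hcon
  have hR : ∀ n, x ≤ n → n ≤ 2 ^ (j + 2) * x ^ 2 → rep A n ≤ 2 * g + 1 := by
    intro n h1 h2
    have := hc2 n h1 h2
    omega
  set a := Nat.clog 2 (x ^ 2) with ha
  have hx2 : 1 ≤ x ^ 2 := Nat.one_le_pow _ _ hx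
  have ha1 : x ^ 2 ≤ 2 ^ a := Nat.le_pow_clog (by norm_num) _
  have hk0a : k0 ≤ a := by
    have : 2 ^ k0 ≤ 2 ^ a := hxk.trans ha1
    exact (Nat.pow_le_pow_iff_right (by norm_num)).1 this
  have ha2 : 2 ^ a ≤ 2 * x ^ 2 := by
    rcases Nat.lt_or_ge 1 (x ^ 2) with h | h
    · have h3 := Nat.pow_pred_clog_lt_self (b := 2) (by norm_num) h
      have h4 : 1 ≤ a := Nat.clog_pos (by norm_num) h
      have h5 : 2 ^ a = 2 * 2 ^ (a - 1) := by rw [← pow_succ']; congr 1; omega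
      rw [← ha, Nat.pred_eq_sub_one] at h3
      omega
    · have h6 : x ^ 2 = 1 := le_antisymm h hx2
      rw [ha, h6]; simp
  have hb : 2 ^ (a + j) ≤ 2 ^ (j + 1) * x ^ 2 := by
    calc 2 ^ (a + j) = 2 ^ a * 2 ^ j := pow_add _ _ _
      _ ≤ (2 * x ^ 2) * 2 ^ j := Nat.mul_le_mul_right _ ha2
      _ = 2 ^ (j + 1) * x ^ 2 := by ring
  have hb2 : 2 ^ (j + 2) * x ^ 2 = 2 * (2 ^ (j + 1) * x ^ 2) := by ring
  have hk : ∀ k, a ≤ k → k < a + j →
      T * ((Ico (2 ^ k) (2 ^ (k + 1))).filter (fun n => rep A n < V)).card ≤ 2 ^ k := by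
    intro k h1 h2
    have h3 : 2 ^ (k + 1) ≤ 2 ^ (a + j) := Nat.pow_le_pow_right (by norm_num) (by omega)
    have h4 : x ^ 2 ≤ 2 ^ k := ha1.trans (Nat.pow_le_pow_right (by norm_num) h1)
    have h5 : 2 ^ k ≤ 2 ^ (k + 1) := Nat.pow_le_pow_right (by norm_num) (by omega)
    apply hS3 k (by omega) A
    · refine ⟨x, h4, fun n h7 h8 => hR n h7 ?_⟩
      have h9 : 2 ^ (k + 2) = 2 * 2 ^ (k + 1) := by rw [pow_succ 2 (k + 1)]; ring
      omega
    · intro s hs hsI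
      have h6 := mem_Ico.1 hsI
      have := hc1 s hs (by omega) (by omega)
      omega
  have h1 := blocks_sum A V T a hT1 j hk
  have hxN : x ^ 2 ≤ 2 ^ (a + j) :=
    ha1.trans (Nat.pow_le_pow_right (by norm_num) (by omega))
  have h2 := hlaw A x (2 ^ (a + j)) hx hxN
  have h3 : (Icc x (2 ^ (a + j))).filter (fun n => 2 * g + 2 ≤ rep A n) = ∅ := by
    rw [filter_eq_empty_iff]
    intro n hn
    rw [mem_Icc] at hn
    have := hR n hn.1 (by omega)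
    omega
  rw [h3, sum_empty, add_zero] at h2
  have h4 : ∑ n ∈ (Icc (x ^ 2) (2 ^ (a + j))).filter (fun n => rep A n ≤ 2 * l - 2),
      1 / (n : ℝ) ≤ 2 + j / T := by
    have h5 : (Icc (x ^ 2) (2 ^ (a + j))).filter (fun n => rep A n ≤ 2 * l - 2) ⊆
        (Ico (x ^ 2) (2 ^ a) ∪ {2 ^ (a + j)}) ∪
          (Ico (2 ^ a) (2 ^ (a + j))).filter (fun n => rep A n < V) := by
      intro n hn
      rw [mem_filter, mem_Icc] at hn
      rw [mem_union, mem_union, mem_Ico, mem_singleton, mem_filter, mem_Ico]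
      by_cases h6 : n < 2 ^ a
      · exact Or.inl (Or.inl ⟨hn.1.1, h6⟩)
      · by_cases h7 : n = 2 ^ (a + j)
        · exact Or.inl (Or.inr h7)
        · exact Or.inr ⟨⟨by omega, by omega⟩, by omega⟩
    have hnn : ∀ n : ℕ, (0 : ℝ) ≤ 1 / (n : ℝ) := fun n => by positivity
    have h6 : ∑ n ∈ Ico (x ^ 2) (2 ^ a), 1 / (n : ℝ) ≤ 1 := by
      have h7 : ∀ n ∈ Ico (x ^ 2) (2 ^ a), 1 / (n : ℝ) ≤ 1 / ((x : ℝ) ^ 2) := by
        intro n hn
        apply one_div_le_one_div_of_le (by positivity)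
        exact_mod_cast (mem_Ico.1 hn).1
      refine (sum_le_sum h7).trans ?_
      rw [sum_const, nsmul_eq_mul, Nat.card_Ico, mul_one_div]
      rw [div_le_one (by positivity)]
      have : 2 ^ a - x ^ 2 ≤ x ^ 2 := by omega
      exact_mod_cast this
    have h7 : (1 : ℝ) / ((2 ^ (a + j) : ℕ) : ℝ) ≤ 1 := by
      rw [div_le_one (by positivity)]
      exact_mod_cast Nat.one_le_two_pow
    calc _ ≤ ∑ n ∈ (Ico (x ^ 2) (2 ^ a) ∪ {2 ^ (a + j)}) ∪
          (Ico (2 ^ a) (2 ^ (a + j))).filter (fun n => rep A n < V), 1 / (n : ℝ) :=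
          sum_le_sum_of_subset_of_nonneg h5 (fun n _ _ => hnn n)
      _ ≤ ∑ n ∈ (Ico (x ^ 2) (2 ^ a) ∪ {2 ^ (a + j)}), 1 / (n : ℝ) +
          ∑ n ∈ (Ico (2 ^ a) (2 ^ (a + j))).filter (fun n => rep A n < V), 1 / (n : ℝ) := by
          rw [← sum_union_inter]
          have := sum_nonneg (s := (Ico (x ^ 2) (2 ^ a) ∪ {2 ^ (a + j)}) ∩
            (Ico (2 ^ a) (2 ^ (a + j))).filter (fun n => rep A n < V)) (fun n _ => hnn n)
          linarith
      _ ≤ (∑ n ∈ Ico (x ^ 2) (2 ^ a), 1 / (n : ℝ) +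
            ∑ n ∈ ({2 ^ (a + j)} : Finset ℕ), 1 / (n : ℝ)) + j / T := by
          apply add_le_add _ h1
          rw [← sum_union_inter]
          have := sum_nonneg (s := Ico (x ^ 2) (2 ^ a) ∩ {2 ^ (a + j)}) (fun n _ => hnn n)
          linarith
      _ ≤ 2 + j / T := by
          rw [sum_singleton]
          linarith
  have h5 : (j : ℝ) * (1 / 2) ≤ Real.log (((2 ^ (a + j) : ℕ) : ℝ) / (x : ℝ) ^ 2) := by
    have h6 : (2 : ℝ) ^ j ≤ ((2 ^ (a + j) : ℕ) : ℝ) / (x : ℝ) ^ 2 := by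
      rw [le_div_iff₀ (by positivity)]
      have : 2 ^ j * x ^ 2 ≤ 2 ^ (a + j) := by
        rw [pow_add, mul_comm]
        exact Nat.mul_le_mul_right _ ha1
      exact_mod_cast this
    have h7 := Real.log_le_log (by positivity) h6
    rw [Real.log_pow] at h7
    have h8 : (1 / 2 : ℝ) ≤ Real.log 2 := by linarith [Real.log_two_gt_d9]
    have h9 : (0 : ℝ) ≤ j := Nat.cast_nonneg j
    nlinarith
  have h6 : (j : ℝ) / T ≤ j * (δ / 4) := by
    have h7 : 1 / (T : ℝ) ≤ δ / 4 := by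
      rw [div_lt_iff₀ hδ] at hT
      rw [div_le_div_iff₀ hT0 (by norm_num)]
      linarith
    rw [div_eq_mul_one_div]
    exact mul_le_mul_of_nonneg_left h7 (Nat.cast_nonneg j)
  have h7 := mul_le_mul_of_nonneg_left h5 hδ.le
  rw [div_lt_iff₀ hδ] at hj
  have h8 := le_abs_self C0
  linarith

lemma cnt_glue_small (S : ℕ → Finset ℕ) (hS : ∀ k, S k ⊆ Ico (2 ^ k) (2 ^ (k + 1))) (x : ℕ)
    (hx : x ≤ 1) : cnt (glue S) x = 0 := by
  have h := cnt_glue S hS x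
  have h1 : Nat.clog 2 x = 0 := Nat.clog_of_right_le_one hx 2
  rw [h1, range_zero, sum_empty] at h
  omega

/-- **A sparse test set.** -/
theorem sparse_local (l g : ℕ) (hlg : Close l g) :
    ∃ (S : Set ℕ) (C : ℝ) (L : ℕ),
      (∀ x : ℕ, (cnt S x : ℝ) ≤ C * Real.sqrt x) ∧
      ∀ (A : Set ℕ) (x : ℕ), 1 ≤ x →
        (∃ s ∈ S, x ^ 2 ≤ s ∧ s ≤ L * x ^ 2 ∧ rep A s ≤ 2 * l - 2) ∨
        (∃ n, x ≤ n ∧ n ≤ L * x ^ 2 ∧ 2 * g + 2 ≤ rep A n) := by
  classical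
  obtain ⟨T, L, hT1, hloc⟩ := local_of_scales l g hlg
  have hT0 : (0 : ℝ) < T := by exact_mod_cast hT1
  obtain ⟨c, hc⟩ := calm_count (2 * g + 1)
  choose 𝓑 h𝓑1 h𝓑2 using hc
  set V := 2 * l - 1 with hV
  choose S hS1 hS2 hS3 using fun k => scale_test_fam k (c * 2 ^ ((k + 2) / 2)) V T hT1 (𝓑 k) (h𝓑1 k)
  refine ⟨glue S, 12 * (T * (c + V + 1)), L, ?_, ?_⟩
  · intro x
    rcases Nat.lt_or_ge 1 x with hx | hx
    · have h1 := size_bound S hS1 (T * (c + V + 1)) (by positivity) 0 (by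
        intro k
        have h2 : ((S k).card : ℝ) ≤ T * (c * 2 ^ ((k + 2) / 2) + V + 1) := by
          exact_mod_cast hS2 k
        refine h2.trans ?_
        have h3 : (1 : ℝ) ≤ 2 ^ ((k + 2) / 2) := one_le_pow₀ (by norm_num)
        have h6 : (0 : ℝ) ≤ V := Nat.cast_nonneg V
        have h7 : (c * 2 ^ ((k + 2) / 2) + V + 1 : ℝ) ≤ (c + V + 1) * 2 ^ ((k + 2) / 2) := by
          nlinarith
        calc (T : ℝ) * (c * 2 ^ ((k + 2) / 2) + V + 1) ≤
              T * ((c + V + 1) * 2 ^ ((k + 2) / 2)) :=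
              mul_le_mul_of_nonneg_left h7 hT0.le
          _ = _ := by ring) x hx
      refine h1.trans (le_of_eq ?_)
      ring
    · rw [cnt_glue_small S hS1 x hx]
      simp only [Nat.cast_zero]
      positivity
  · intro A x hx
    exact hloc (glue S) 0 (fun k _ A hA hs => hS3 k A (h𝓑2 k A hA) V le_rfl
      (fun s hsS => hs s ⟨k, hsS⟩ (hS1 k hsS))) A x hx (by simpa using Nat.one_le_pow _ _ hx)

end Pool.Agent.H38.SP
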