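import Pool.Agent.H38.SP.C

/-!
# From the scales to infinitely many large representation numbers
-/

set_option autoImplicit false

open Finset Filter

namespace Pool.Agent.H38.SP

open Classical in
/-- If the representation numbers of almost all integers are at least `2 l - 1`, on all large
scales, then some are at least `2 g + 2`. -/
theorem large_of_scales (l g : ℕ) (hlg : Close l g) : ∃ T0 : ℕ, 1 ≤ T0 ∧ ∀ A : Set ℕ,
    ((∃ n0 : ℕ, ∀ n, n0 ≤ n → rep A n ≤ 2 * g + 1) → ∀ᶠ k in atTop,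
      T0 * ((Ico (2 ^ k) (2 ^ (k + 1))).filter (fun n => rep A n < 2 * l - 1)).card ≤ 2 ^ k) →
    {n | 2 * g + 2 ≤ rep A n}.Infinite := by
  obtain ⟨δ, hδ, C0, hlaw⟩ := law l g hlg
  have hl : 1 ≤ l := hlg.1
  obtain ⟨T0, hT0⟩ := exists_nat_gt (4 / δ)
  have hT0' : (0 : ℝ) < T0 := lt_trans (by positivity) hT0
  have hT1 : 1 ≤ T0 := by exact_mod_cast hT0'
  refine ⟨T0, hT1, ?_⟩
  intro A h hfin
  obtain ⟨n0, hn0⟩ : ∃ n0, ∀ n, n0 ≤ n → rep A n ≤ 2 * g + 1 := by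
    obtain ⟨b, hb⟩ := hfin.bddAbove
    refine ⟨b + 1, fun s h => ?_⟩
    by_contra hcon
    push Not at hcon
    have := hb (show 2 * g + 2 ≤ rep A s by omega)
    omega
  obtain ⟨k0, hk0⟩ := eventually_atTop.1 (h ⟨n0, hn0⟩)
  set x := n0 + 1 with hx
  set a := max k0 (Nat.clog 2 (x ^ 2)) with ha
  have ha1 : x ^ 2 ≤ 2 ^ a := (Nat.le_pow_clog (by norm_num) _).trans
    (Nat.pow_le_pow_right (by norm_num) (le_max_right _ _))
  obtain ⟨j, hj⟩ := exists_nat_gt (4 * (2 ^ a + 1 + |C0|) / δ)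
  have h1 := blocks_sum A (2 * l - 1) T0 a hT1 j (fun k h1 _ => hk0 k ((le_max_left _ _).trans h1))
  have hxN : x ^ 2 ≤ 2 ^ (a + j) :=
    ha1.trans (Nat.pow_le_pow_right (by norm_num) (by omega))
  have h2 := hlaw A x (2 ^ (a + j)) (by omega) hxN
  have h3 : (Icc x (2 ^ (a + j))).filter (fun n => 2 * g + 2 ≤ rep A n) = ∅ := by
    rw [filter_eq_empty_iff]
    intro n hn
    rw [mem_Icc] at hn
    have := hn0 n (by omega)
    omega
  rw [h3, sum_empty, add_zero] at h2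
  have h4 : ∑ n ∈ (Icc (x ^ 2) (2 ^ (a + j))).filter (fun n => rep A n ≤ 2 * l - 2),
      1 / (n : ℝ) ≤ 2 ^ a + 1 + j / T0 := by
    have h5 : (Icc (x ^ 2) (2 ^ (a + j))).filter (fun n => rep A n ≤ 2 * l - 2) ⊆
        (Ico (x ^ 2) (2 ^ a) ∪ {2 ^ (a + j)}) ∪
          (Ico (2 ^ a) (2 ^ (a + j))).filter (fun n => rep A n < 2 * l - 1) := by
      intro n hn
      rw [mem_filter, mem_Icc] at hn
      rw [mem_union, mem_union, mem_Ico, mem_singleton, mem_filter, mem_Ico]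
      by_cases h6 : n < 2 ^ a
      · exact Or.inl (Or.inl ⟨hn.1.1, h6⟩)
      · by_cases h7 : n = 2 ^ (a + j)
        · exact Or.inl (Or.inr h7)
        · exact Or.inr ⟨⟨by omega, by omega⟩, by omega⟩
    have hnn : ∀ n : ℕ, (0 : ℝ) ≤ 1 / (n : ℝ) := fun n => by positivity
    have hx1 : 1 ≤ x ^ 2 := Nat.one_le_pow _ _ (by omega)
    have h6 : ∑ n ∈ Ico (x ^ 2) (2 ^ a), 1 / (n : ℝ) ≤ 2 ^ a := by
      have h7 : ∀ n ∈ Ico (x ^ 2) (2 ^ a), 1 / (n : ℝ) ≤ 1 := by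
        intro n hn
        have h8 : 1 ≤ n := hx1.trans (mem_Ico.1 hn).1
        rw [div_le_one (by exact_mod_cast h8)]
        exact_mod_cast h8
      refine (sum_le_sum h7).trans ?_
      rw [sum_const, nsmul_eq_mul, Nat.card_Ico, mul_one]
      have : 2 ^ a - x ^ 2 ≤ 2 ^ a := Nat.sub_le _ _
      exact_mod_cast this
    have h7 : (1 : ℝ) / ((2 ^ (a + j) : ℕ) : ℝ) ≤ 1 := by
      rw [div_le_one (by positivity)]
      exact_mod_cast Nat.one_le_two_pow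
    calc _ ≤ ∑ n ∈ (Ico (x ^ 2) (2 ^ a) ∪ {2 ^ (a + j)}) ∪
          (Ico (2 ^ a) (2 ^ (a + j))).filter (fun n => rep A n < 2 * l - 1), 1 / (n : ℝ) :=
          sum_le_sum_of_subset_of_nonneg h5 (fun n _ _ => hnn n)
      _ ≤ ∑ n ∈ (Ico (x ^ 2) (2 ^ a) ∪ {2 ^ (a + j)}), 1 / (n : ℝ) +
          ∑ n ∈ (Ico (2 ^ a) (2 ^ (a + j))).filter (fun n => rep A n < 2 * l - 1),
            1 / (n : ℝ) := by
          rw [← sum_union_inter]
          have := sum_nonneg (s := (Ico (x ^ 2) (2 ^ a) ∪ {2 ^ (a + j)}) ∩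
            (Ico (2 ^ a) (2 ^ (a + j))).filter (fun n => rep A n < 2 * l - 1)) (fun n _ => hnn n)
          linarith
      _ ≤ (∑ n ∈ Ico (x ^ 2) (2 ^ a), 1 / (n : ℝ) +
            ∑ n ∈ ({2 ^ (a + j)} : Finset ℕ), 1 / (n : ℝ)) + j / T0 := by
          apply add_le_add _ h1
          rw [← sum_union_inter]
          have := sum_nonneg (s := Ico (x ^ 2) (2 ^ a) ∩ {2 ^ (a + j)}) (fun n _ => hnn n)
          linarith
      _ ≤ 2 ^ a + 1 + j / T0 := by
          rw [sum_singleton]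
          linarith
  have h5 : (j : ℝ) * (1 / 2) ≤ Real.log (((2 ^ (a + j) : ℕ) : ℝ) / (x : ℝ) ^ 2) := by
    have h6 : (2 : ℝ) ^ j ≤ ((2 ^ (a + j) : ℕ) : ℝ) / (x : ℝ) ^ 2 := by
      rw [le_div_iff₀ (by positivity)]
      have : 2 ^ j * x ^ 2 ≤ 2 ^ (a + j) := by
        rw [pow_add, mul_comm]
        exact Nat.mul_le_mul_right _ ha1
      exact_mod_cast this
    have h7 := Real.log_le_log (by positivity) h6
    rw [Real.log_pow] at h7
    have h8 : (1 / 2 : ℝ) ≤ Real.log 2 := by linarith [Real.log_two_gt_d9]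
    have h9 : (0 : ℝ) ≤ j := Nat.cast_nonneg j
    nlinarith
  have h6 : (j : ℝ) / T0 ≤ j * (δ / 4) := by
    have h7 : 1 / (T0 : ℝ) ≤ δ / 4 := by
      rw [div_lt_iff₀ hδ] at hT0
      rw [div_le_div_iff₀ hT0' (by norm_num)]
      linarith
    rw [div_eq_mul_one_div]
    exact mul_le_mul_of_nonneg_left h7 (Nat.cast_nonneg j)
  have h7 := mul_le_mul_of_nonneg_left h5 hδ.le
  rw [div_lt_iff₀ hδ] at hj
  have h8 := le_abs_self C0
  linarith

lemma calm_of_eventually (A : Set ℕ) (R n0 : ℕ) (h : ∀ n, n0 ≤ n → rep A n ≤ R) :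
    ∀ᶠ k in atTop, Calm R k A := by
  filter_upwards [eventually_ge_atTop (n0 ^ 2)] with k hk
  refine ⟨n0, ?_, fun n hn _ => h n hn⟩
  have : k < 2 ^ k := Nat.lt_two_pow_self
  omega

end Pool.Agent.H38.SP
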