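import Pool.Agent.H38.SP.B

/-!
# Representing the targets of one scale with few coincidences
-/

set_option autoImplicit false

open Finset

namespace Pool.Agent.H38.SP

open Classical in
/-- the sums created by the new elements `x` and `s - x` -/
noncomputable def bx (D : Finset ℕ) (s x n : ℕ) : ℕ :=
  if (∃ a ∈ D, x + a = n) ∨ (∃ a ∈ D, (s - x) + a = n) ∨ n = 2 * x ∨ n = 2 * (s - x) then 1 else 0

lemma sum_bx (D J : Finset ℕ) (s n : ℕ) (hJs : ∀ x ∈ J, x ≤ s) :
    ∑ x ∈ J, bx D s x n ≤ 2 * D.card + 2 := by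
  classical
  have h0 : ∑ x ∈ J, bx D s x n = (J.filter (fun x => (∃ a ∈ D, x + a = n) ∨
      (∃ a ∈ D, (s - x) + a = n) ∨ n = 2 * x ∨ n = 2 * (s - x))).card := by
    rw [card_filter]
    apply sum_congr rfl
    intro x _
    unfold bx
    congr
  rw [h0]
  have h1 : (J.filter (fun x => (∃ a ∈ D, x + a = n) ∨
      (∃ a ∈ D, (s - x) + a = n) ∨ n = 2 * x ∨ n = 2 * (s - x))) ⊆
      ((D.image (fun a => n - a)) ∪ (D.image (fun a => s + a - n))) ∪ ({n / 2} ∪ {s - n / 2}) := by
    intro x hx
    rw [mem_filter] at hx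
    have hxs := hJs x hx.1
    rw [mem_union, mem_union, mem_union, mem_image, mem_image, mem_singleton, mem_singleton]
    rcases hx.2 with ⟨a, ha, h⟩ | ⟨a, ha, h⟩ | h | h
    · exact Or.inl (Or.inl ⟨a, ha, by omega⟩)
    · exact Or.inl (Or.inr ⟨a, ha, by omega⟩)
    · exact Or.inr (Or.inl (by omega))
    · exact Or.inr (Or.inr (by omega))
  refine (card_le_card h1).trans ((card_union_le _ _).trans ?_)
  have h2 := card_union_le (D.image (fun a => n - a)) (D.image (fun a => s + a - n))
  have h3 := card_image_le (s := D) (f := fun a => n - a)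
  have h4 := card_image_le (s := D) (f := fun a => s + a - n)
  have h5 := card_union_le ({n / 2} : Finset ℕ) {s - n / 2}
  rw [card_singleton, card_singleton] at h5
  omega

lemma bx_le_one (D : Finset ℕ) (s x n : ℕ) : bx D s x n ≤ 1 := by
  unfold bx; split_ifs <;> omega

lemma step (Y : ℕ) (W : ℝ) (hW : 1 ≤ W) (J D : Finset ℕ) (hJ : J.Nonempty) (s : ℕ)
    (hJs : ∀ x ∈ J, x ≤ s) (u : ℕ → ℕ) :
    ∃ x ∈ J, ∑ n ∈ range Y, W ^ (u n + bx D s x n) ≤
      (1 + (2 * (D.card : ℝ) + 2) * W / J.card) * ∑ n ∈ range Y, W ^ u n := by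
  have hJ0 : (0 : ℝ) < J.card := by exact_mod_cast hJ.card_pos
  apply exists_le_of_sum_le hJ
  rw [sum_comm, sum_const, nsmul_eq_mul]
  have h1 : ∀ n ∈ range Y, ∑ x ∈ J, W ^ (u n + bx D s x n) ≤
      ((J.card : ℝ) + (2 * (D.card : ℝ) + 2) * W) * W ^ u n := by
    intro n _
    have h2 : ∀ x ∈ J, W ^ (u n + bx D s x n) ≤ W ^ u n * (1 + (bx D s x n : ℝ) * W) := by
      intro x _
      rw [pow_add]
      apply mul_le_mul_of_nonneg_left _ (by positivity)
      have h3 := bx_le_one D s x n
      interval_cases bx D s x n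
      · simp
      · simp
    refine (sum_le_sum h2).trans ?_
    rw [← mul_sum, sum_add_distrib, sum_const, nsmul_eq_mul, ← sum_mul]
    have h3 : ∑ x ∈ J, (bx D s x n : ℝ) ≤ 2 * (D.card : ℝ) + 2 := by
      exact_mod_cast sum_bx D J s n hJs
    rw [mul_comm]
    apply mul_le_mul_of_nonneg_right _ (by positivity)
    have h4 := mul_le_mul_of_nonneg_right h3 (by linarith : (0 : ℝ) ≤ W)
    linarith
  refine (sum_le_sum h1).trans (le_of_eq ?_)
  rw [← mul_sum, ← mul_assoc]
  congr 1
  field_simp

lemma rep_finite (A : Set ℕ) (n : ℕ) :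
    {p : ℕ × ℕ | p.1 ∈ A ∧ p.2 ∈ A ∧ p.1 + p.2 = n}.Finite := by
  apply Set.Finite.subset (Finset.finite_toSet (antidiagonal n))
  rintro ⟨a, b⟩ ⟨-, -, h⟩
  rw [mem_coe, HasAntidiagonal.mem_antidiagonal]
  exact h

lemma rep_le_add (A A' : Set ℕ) (n : ℕ) (N : Finset (ℕ × ℕ))
    (h : ∀ p q, p ∈ A' → q ∈ A' → p + q = n → (p ∈ A ∧ q ∈ A) ∨ (p, q) ∈ N) :
    rep A' n ≤ rep A n + N.card := by
  unfold rep
  rw [← Set.ncard_coe_finset]
  refine le_trans (Set.ncard_le_ncard ?_ ((rep_finite A n).union N.finite_toSet))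
    (Set.ncard_union_le _ _)
  rintro ⟨p, q⟩ ⟨h1, h2, h3⟩
  rcases h p q h1 h2 h3 with h4 | h4
  · exact Or.inl ⟨h4.1, h4.2, h3⟩
  · exact Or.inr (mem_coe.2 h4)

lemma rep_insert (D : Finset ℕ) (s x n : ℕ) (hx : x ≤ s) :
    rep ((insert x (insert (s - x) D) : Finset ℕ) : Set ℕ) n ≤
      rep (D : Set ℕ) n + 4 * bx D s x n + (if n = s then 2 else 0) := by
  classical
  have hmem : ∀ p, p ∈ ((insert x (insert (s - x) D) : Finset ℕ) : Set ℕ) ↔
      p = x ∨ p = s - x ∨ p ∈ D := by
    intro p
    rw [mem_coe, mem_insert, mem_insert]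
  by_cases hns : n = s
  · have h1 := rep_le_add (D : Set ℕ) ((insert x (insert (s - x) D) : Finset ℕ) : Set ℕ) n
      {(x, s - x), (s - x, x)} (by
        intro p q hp hq hpq
        rw [hmem] at hp hq
        rw [mem_insert, mem_singleton, Prod.mk.injEq, Prod.mk.injEq]
        rcases hp with hp | hp | hp
        · right; left; exact ⟨hp, by omega⟩
        · right; right; exact ⟨hp, by omega⟩
        · rcases hq with hq | hq | hq
          · right; right; exact ⟨by omega, hq⟩
          · right; left; exact ⟨by omega, hq⟩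
          · left; exact ⟨hp, hq⟩)
    have h2 : ({(x, s - x), (s - x, x)} : Finset (ℕ × ℕ)).card ≤ 2 := card_le_two
    rw [if_pos hns]
    omega
  · rw [if_neg hns, add_zero]
    by_cases hb : bx D s x n = 1
    · have h1 := rep_le_add (D : Set ℕ) ((insert x (insert (s - x) D) : Finset ℕ) : Set ℕ) n
        {(x, n - x), (s - x, n - (s - x)), (n - x, x), (n - (s - x), s - x)} (by
          intro p q hp hq hpq
          rw [hmem] at hp hq
          simp only [mem_insert, mem_singleton, Prod.mk.injEq]
          rcases hp with hp | hp | hp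
          · right; left; exact ⟨hp, by omega⟩
          · right; right; left; exact ⟨hp, by omega⟩
          · rcases hq with hq | hq | hq
            · right; right; right; left; exact ⟨by omega, hq⟩
            · right; right; right; right; exact ⟨by omega, hq⟩
            · left; exact ⟨hp, hq⟩)
      have h2 : ({(x, n - x), (s - x, n - (s - x)), (n - x, x), (n - (s - x), s - x)} :
          Finset (ℕ × ℕ)).card ≤ 4 := card_le_four
      omega
    · have hb' : ¬ ((∃ a ∈ D, x + a = n) ∨ (∃ a ∈ D, (s - x) + a = n) ∨ n = 2 * x ∨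
          n = 2 * (s - x)) := by
        intro h
        apply hb
        unfold bx
        rw [if_pos h]
      have h1 := rep_le_add (D : Set ℕ) ((insert x (insert (s - x) D) : Finset ℕ) : Set ℕ) n
        ∅ (by
          intro p q hp hq hpq
          rw [hmem] at hp hq
          left
          rcases hp with hp | hp | hp
          · exfalso
            rcases hq with hq | hq | hq
            · exact hb' (Or.inr (Or.inr (Or.inl (by omega))))
            · omega
            · exact hb' (Or.inl ⟨q, hq, by omega⟩)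
          · exfalso
            rcases hq with hq | hq | hq
            · omega
            · exact hb' (Or.inr (Or.inr (Or.inr (by omega))))
            · exact hb' (Or.inr (Or.inl ⟨q, hq, by omega⟩))
          · rcases hq with hq | hq | hq
            · exfalso; exact hb' (Or.inl ⟨p, hp, by omega⟩)
            · exfalso; exact hb' (Or.inr (Or.inl ⟨p, hp, by omega⟩))
            · exact ⟨hp, hq⟩)
      rw [card_empty] at h1
      omega

/-- the targets of one scale -/
theorem scale_cover (k m : ℕ) (hk : 2 ≤ k) (W : ℝ) (hW : 1 ≤ W) (D : Finset ℕ)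
    (hD : D ⊆ range (2 ^ (k + 1))) (S : Finset ℕ) :
    S ⊆ Ico (2 ^ k) (2 ^ (k + 1)) → D.card + 2 * S.card ≤ m →
    ∃ (D' : Finset ℕ) (u : ℕ → ℕ), D ⊆ D' ∧ D' ⊆ range (2 ^ (k + 1)) ∧
      D'.card ≤ D.card + 2 * S.card ∧ (∀ a ∈ D', a ∉ D → 2 ^ (k - 2) ≤ a) ∧
      (∀ s ∈ S, ∃ x ∈ D', x ≤ s ∧ s - x ∈ D') ∧
      (∀ n, rep (D' : Set ℕ) n ≤ rep (D : Set ℕ) n + 4 * u n + (if n ∈ S then 2 else 0)) ∧
      (∀ n, (n < 2 ^ (k - 2) ∨ 2 ^ (k + 2) ≤ n) → u n = 0) ∧
      ∑ n ∈ range (2 ^ (k + 2)), W ^ u n ≤
        2 ^ (k + 2) * (1 + (2 * (m : ℝ) + 2) * W / 2 ^ (k - 2)) ^ S.card := by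
  classical
  induction S using Finset.induction_on with
  | empty =>
    intro _ _
    refine ⟨D, fun _ => 0, subset_rfl, hD, by simp, fun a h1 h2 => absurd h1 h2, by simp,
      fun n => by simp, fun _ _ => rfl, ?_⟩
    simp
  | insert s S hs ih =>
    intro hS hm
    have hS' : S ⊆ Ico (2 ^ k) (2 ^ (k + 1)) := (subset_insert _ _).trans hS
    rw [card_insert_of_notMem hs] at hm
    obtain ⟨D', u, h1, h2, h3, h4, h5, h6, h7, h8⟩ := ih hS' (by omega)
    have hsI := mem_Ico.1 (hS (mem_insert_self s S))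
    have e1 : 2 ^ (k - 1) = 2 * 2 ^ (k - 2) := by
      rw [← pow_succ']; congr 1; omega
    have e2 : 2 ^ k = 4 * 2 ^ (k - 2) := by
      have : 2 ^ k = 2 ^ (2 + (k - 2)) := by congr 1; omega
      rw [this, pow_add]; norm_num
    have e3 : 2 ^ (k + 1) = 8 * 2 ^ (k - 2) := by rw [pow_succ, e2]; ring
    have e4 : 2 ^ (k + 2) = 16 * 2 ^ (k - 2) := by rw [pow_succ, e3]; ring
    set P := 2 ^ (k - 2) with hP
    have hP0 : 0 < P := by positivity
    have hJc : (Ico P (2 * P)).card = P := by rw [Nat.card_Ico]; omega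
    have hJne : (Ico P (2 * P)).Nonempty := by
      rw [← card_pos, hJc]; exact hP0
    obtain ⟨x, hxJ, hx⟩ := step (2 ^ (k + 2)) W hW (Ico P (2 * P)) D' hJne s (by
      intro x hx
      have := (mem_Ico.1 hx).2
      omega) u
    rw [mem_Ico] at hxJ
    have hxs : x ≤ s := by omega
    refine ⟨insert x (insert (s - x) D'), fun n => u n + bx D' s x n, ?_, ?_, ?_, ?_, ?_, ?_, ?_, ?_⟩
    · exact h1.trans ((subset_insert _ _).trans (subset_insert _ _))
    · intro a ha
      rw [mem_insert, mem_insert] at ha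
      rw [mem_range]
      rcases ha with ha | ha | ha
      · omega
      · omega
      · exact mem_range.1 (h2 ha)
    · rw [card_insert_of_notMem hs]
      have h9 := card_insert_le x (insert (s - x) D')
      have h10 := card_insert_le (s - x) D'
      omega
    · intro a ha haD
      rw [mem_insert, mem_insert] at ha
      rcases ha with ha | ha | ha
      · omega
      · omega
      · exact h4 a ha haD
    · intro t ht
      rcases mem_insert.1 ht with ht | ht
      · refine ⟨x, mem_insert_self _ _, by omega, ?_⟩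
        rw [ht]
        exact mem_insert_of_mem (mem_insert_self _ _)
      · obtain ⟨y, hy1, hy2, hy3⟩ := h5 t ht
        exact ⟨y, mem_insert_of_mem (mem_insert_of_mem hy1), hy2,
          mem_insert_of_mem (mem_insert_of_mem hy3)⟩
    · intro n
      have h9 := rep_insert D' s x n hxs
      have h10 := h6 n
      show _ ≤ _ + 4 * (u n + bx D' s x n) + _
      by_cases hn : n = s
      · have h11 : n ∉ S := by rw [hn]; exact hs
        have h12 : n ∈ insert s S := by rw [hn]; exact mem_insert_self _ _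
        rw [if_pos hn] at h9
        rw [if_neg h11] at h10
        rw [if_pos h12]
        omega
      · have h12 : n ∈ insert s S ↔ n ∈ S := by
          rw [mem_insert]
          constructor
          · rintro (h | h)
            · exact absurd h hn
            · exact h
          · exact Or.inr
        rw [if_neg hn] at h9
        simp only [h12]
        omega
    · intro n hn
      show u n + bx D' s x n = 0
      rw [h7 n hn, zero_add]
      unfold bx
      rw [if_neg]
      rintro (⟨a, ha, h⟩ | ⟨a, ha, h⟩ | h | h)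
      · have := mem_range.1 (h2 ha)
        omega
      · have := mem_range.1 (h2 ha)
        omega
      · omega
      · omega
    · rw [card_insert_of_notMem hs, pow_succ]
      have h9 : (1 + (2 * (D'.card : ℝ) + 2) * W / (Ico P (2 * P)).card) ≤
          1 + (2 * (m : ℝ) + 2) * W / 2 ^ (k - 2) := by
        rw [hJc]
        have h10 : (P : ℝ) = 2 ^ (k - 2) := by rw [hP]; push_cast; ring
        rw [h10]
        have h11 : (D'.card : ℝ) ≤ m := by exact_mod_cast (by omega : D'.card ≤ m)
        have hW0 : 0 ≤ W := by linarith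
        gcongr
      have h10 : 0 ≤ ∑ n ∈ range (2 ^ (k + 2)), W ^ u n :=
        sum_nonneg fun n _ => by have : 0 ≤ W := by linarith
                                 positivity
      have h11 : 0 ≤ 1 + (2 * (m : ℝ) + 2) * W / 2 ^ (k - 2) := by
        have : 0 ≤ W := by linarith
        positivity
      calc _ ≤ _ := hx
        _ ≤ (1 + (2 * (m : ℝ) + 2) * W / 2 ^ (k - 2)) * ∑ n ∈ range (2 ^ (k + 2)), W ^ u n :=
            mul_le_mul_of_nonneg_right h9 h10
        _ ≤ (1 + (2 * (m : ℝ) + 2) * W / 2 ^ (k - 2)) *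
            (2 ^ (k + 2) * (1 + (2 * (m : ℝ) + 2) * W / 2 ^ (k - 2)) ^ S.card) :=
            mul_le_mul_of_nonneg_left h8 h11
        _ = _ := by ring

end Pool.Agent.H38.SP
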