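import Pool.Agent.H38.SP.E

/-!
# Sets of targets with at most `C x ^ (1 / 2 - η)` elements up to `x`
-/

set_option autoImplicit false

open Finset

namespace Pool.Agent.H38.SP

lemma cnt_mono (A : Set ℕ) (x y : ℕ) (h : x ≤ y) : cnt A x ≤ cnt A y := by
  classical
  rw [cnt_eq_card, cnt_eq_card]
  apply card_le_card
  intro a ha
  rw [mem_filter, mem_range] at ha ⊢
  exact ⟨by omega, ha.2⟩

lemma scale_cover2 (C η : ℝ) (hC : 1 ≤ C) (hη : 0 < η) (hη4 : η ≤ 1 / 4) (U : ℕ)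
    (hU : 3 / η ≤ U) (k : ℕ) (hk : 2 ≤ k) (hk2 : 64 * C ^ 2 ≤ (2 : ℝ) ^ (η * k)) (S : Set ℕ)
    (hS : ∀ x : ℕ, 1 ≤ x → (cnt S x : ℝ) ≤ C * (x : ℝ) ^ (1 / 2 - η)) (D : Finset ℕ)
    (hD : D ⊆ range (2 ^ k)) (hDc : D.card ≤ 1 + 2 * cnt S (2 ^ k))
    (hcov : ∀ s ∈ S, s < 2 ^ k → ∃ x ∈ D, x ≤ s ∧ s - x ∈ D) :
    ∃ D' : Finset ℕ, D ⊆ D' ∧ D' ⊆ range (2 ^ (k + 1)) ∧ D'.card ≤ 1 + 2 * cnt S (2 ^ (k + 1)) ∧
      (∀ a ∈ D', a ∉ D → 2 ^ (k - 2) ≤ a) ∧
      (∀ s ∈ S, s < 2 ^ (k + 1) → ∃ x ∈ D', x ≤ s ∧ s - x ∈ D') ∧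
      ∀ n, rep (D' : Set ℕ) n ≤ rep (D : Set ℕ) n +
        (if 2 ^ (k - 2) ≤ n ∧ n < 2 ^ (k + 2) then 4 * U + 2 else 0) := by
  classical
  set Sk := (Ico (2 ^ k) (2 ^ (k + 1))).filter (· ∈ S) with hSk
  have hkk : 2 ^ k ≤ 2 ^ (k + 1) := Nat.pow_le_pow_right (by norm_num) (by omega)
  have hcnt : cnt S (2 ^ (k + 1)) = cnt S (2 ^ k) + Sk.card := by
    rw [cnt_eq_card, cnt_eq_card, hSk, ← card_union_of_disjoint]
    · congr 1
      rw [← filter_union]
      congr 1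
      ext a
      rw [mem_union, mem_range, mem_range, mem_Ico]
      omega
    · apply disjoint_filter_filter
      rw [disjoint_left]
      intro a h1 h2
      rw [mem_range] at h1
      rw [mem_Ico] at h2
      omega
  set W : ℝ := (2 : ℝ) ^ (η * k) with hWdef
  have hW : 1 ≤ W := Real.one_le_rpow (by norm_num) (by positivity)
  set m := 1 + 2 * cnt S (2 ^ (k + 1)) with hm
  obtain ⟨D', u, h1, h2, h3, h4, h5, h6, h7, h8⟩ := scale_cover k m hk W hW D
    (hD.trans (range_subset_range.2 hkk)) Sk (filter_subset _ _) (by omega)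
  -- the potential
  have hY1 : (1 : ℝ) ≤ ((2 ^ (k + 1) : ℕ) : ℝ) := by exact_mod_cast Nat.one_le_two_pow
  set y : ℝ := ((2 ^ (k + 1) : ℕ) : ℝ) ^ (1 / 2 - η) with hy
  have hy1 : 1 ≤ y := Real.one_le_rpow hY1 (by linarith)
  have hcy : (cnt S (2 ^ (k + 1)) : ℝ) ≤ C * y := hS _ Nat.one_le_two_pow
  have hσ : (Sk.card : ℝ) ≤ C * y := by
    refine le_trans ?_ hcy
    exact_mod_cast (by omega : Sk.card ≤ cnt S (2 ^ (k + 1)))
  have hCy : 1 ≤ C * y := by nlinarith
  have hmy : 2 * (m : ℝ) + 2 ≤ 8 * (C * y) := by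
    rw [hm]; push_cast; linarith
  have hy2 : y ^ 2 * W ≤ 2 * 2 ^ k / W := by
    have hW0 : 0 < W := by linarith
    rw [le_div_iff₀ hW0]
    have e1 : y ^ 2 = (2 : ℝ) ^ (((k : ℝ) + 1) * (1 - 2 * η)) := by
      rw [hy]
      have : ((2 ^ (k + 1) : ℕ) : ℝ) = (2 : ℝ) ^ ((k : ℝ) + 1) := by
        push_cast
        rw [← Real.rpow_natCast]
        push_cast
        rfl
      rw [this, ← Real.rpow_natCast, ← Real.rpow_mul (by positivity), ← Real.rpow_mul (by norm_num)]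
      congr 1
      push_cast
      ring
    have e2 : (2 : ℝ) * 2 ^ k = (2 : ℝ) ^ ((k : ℝ) + 1) := by
      rw [Real.rpow_add (by norm_num), Real.rpow_one, Real.rpow_natCast]
      ring
    rw [e1, e2, hWdef, ← Real.rpow_add (by norm_num), ← Real.rpow_add (by norm_num)]
    apply Real.rpow_le_rpow_of_exponent_le (by norm_num)
    nlinarith
  have hq : (2 * (m : ℝ) + 2) * W / 2 ^ (k - 2) * Sk.card ≤ 1 := by
    have e3 : (2 : ℝ) ^ k = 4 * 2 ^ (k - 2) := by
      have : 2 ^ k = 2 ^ (2 + (k - 2)) := by congr 1; omega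
      calc (2 : ℝ) ^ k = 2 ^ (2 + (k - 2)) := by congr 1; omega
        _ = 4 * 2 ^ (k - 2) := by rw [pow_add]; norm_num
    have hP0 : (0 : ℝ) < 2 ^ (k - 2) := by positivity
    have hW0 : 0 < W := by linarith
    rw [div_mul_eq_mul_div, div_le_one hP0]
    calc (2 * (m : ℝ) + 2) * W * Sk.card ≤ (8 * (C * y)) * W * (C * y) := by
          apply mul_le_mul _ hσ (Nat.cast_nonneg _) (by positivity)
          exact mul_le_mul_of_nonneg_right hmy hW0.le
      _ = 8 * C ^ 2 * (y ^ 2 * W) := by ring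
      _ ≤ 8 * C ^ 2 * (2 * 2 ^ k / W) := mul_le_mul_of_nonneg_left hy2 (by positivity)
      _ = 64 * C ^ 2 * 2 ^ (k - 2) / W := by rw [e3]; ring
      _ ≤ W * 2 ^ (k - 2) / W := by
          apply div_le_div_of_nonneg_right _ hW0.le
          exact mul_le_mul_of_nonneg_right hk2 hP0.le
      _ = 2 ^ (k - 2) := by field_simp
  have hpot : ∑ n ∈ range (2 ^ (k + 2)), W ^ u n ≤ 2 ^ (k + 4) := by
    refine h8.trans ?_
    have hq0 : 0 ≤ (2 * (m : ℝ) + 2) * W / 2 ^ (k - 2) := by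
      have hW0 : 0 < W := by linarith
      positivity
    have e4 : (1 + (2 * (m : ℝ) + 2) * W / 2 ^ (k - 2)) ^ Sk.card ≤ 4 := by
      calc (1 + (2 * (m : ℝ) + 2) * W / 2 ^ (k - 2)) ^ Sk.card ≤
            (Real.exp ((2 * (m : ℝ) + 2) * W / 2 ^ (k - 2))) ^ Sk.card := by
            apply pow_le_pow_left₀ (by positivity)
            have := Real.add_one_le_exp ((2 * (m : ℝ) + 2) * W / 2 ^ (k - 2))
            linarith
        _ = Real.exp ((2 * (m : ℝ) + 2) * W / 2 ^ (k - 2) * Sk.card) := by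
            rw [← Real.exp_nat_mul]; ring_nf
        _ ≤ Real.exp 1 := Real.exp_le_exp.2 hq
        _ ≤ 4 := by linarith [Real.exp_one_lt_d9]
    calc (2 : ℝ) ^ (k + 2) * (1 + (2 * (m : ℝ) + 2) * W / 2 ^ (k - 2)) ^ Sk.card ≤
          2 ^ (k + 2) * 4 := mul_le_mul_of_nonneg_left e4 (by positivity)
      _ = 2 ^ (k + 4) := by rw [pow_add, pow_add]; ring
  have hu : ∀ n, u n ≤ U := by
    intro n
    by_cases hn : n < 2 ^ (k + 2)
    · have e5 : W ^ u n ≤ 2 ^ (k + 4) := by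
        refine le_trans ?_ hpot
        exact single_le_sum (f := fun n => W ^ u n) (fun n _ => by
          have hW0 : 0 < W := by linarith
          positivity) (mem_range.2 hn)
      have e6 : W ^ u n = (2 : ℝ) ^ (η * k * u n) := by
        rw [hWdef, ← Real.rpow_natCast, ← Real.rpow_mul (by norm_num)]
      have e7 : (2 : ℝ) ^ (k + 4) = (2 : ℝ) ^ ((k : ℝ) + 4) := by
        rw [← Real.rpow_natCast]; push_cast; rfl
      rw [e6, e7, Real.rpow_le_rpow_left_iff (by norm_num)] at e5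
      have hk' : (2 : ℝ) ≤ k := by exact_mod_cast hk
      have e8 : (u n : ℝ) * η ≤ 3 := by
        have e9 : ((u n : ℝ) * η) * k ≤ 3 * k := by nlinarith
        exact le_of_mul_le_mul_right e9 (by linarith)
      have e10 : (u n : ℝ) ≤ U := by
        refine le_trans ?_ hU
        rw [le_div_iff₀ hη]
        exact e8
      exact_mod_cast e10
    · rw [h7 n (Or.inr (by omega))]
      exact Nat.zero_le _
  refine ⟨D', h1, h2, by omega, h4, ?_, ?_⟩
  · intro s hs hsk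
    by_cases h9 : s < 2 ^ k
    · obtain ⟨x, hx1, hx2, hx3⟩ := hcov s hs h9
      exact ⟨x, h1 hx1, hx2, h1 hx3⟩
    · exact h5 s (by rw [hSk, mem_filter, mem_Ico]; exact ⟨⟨by omega, hsk⟩, hs⟩)
  · intro n
    have h9 := h6 n
    by_cases h10 : 2 ^ (k - 2) ≤ n ∧ n < 2 ^ (k + 2)
    · rw [if_pos h10]
      have h11 := hu n
      have h12 : (if n ∈ Sk then 2 else 0) ≤ 2 := by split_ifs <;> omega
      omega
    · rw [if_neg h10]
      have h11 : u n = 0 := by
        apply h7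
        by_cases h : n < 2 ^ (k - 2)
        · exact Or.inl h
        · exact Or.inr (by omega)
      have h12 : n ∉ Sk := by
        rw [hSk, mem_filter, mem_Ico]
        rintro ⟨⟨h13, h14⟩, -⟩
        apply h10
        constructor
        · exact le_trans (Nat.pow_le_pow_right (by norm_num) (by omega)) h13
        · exact lt_of_lt_of_le h14 (Nat.pow_le_pow_right (by norm_num) (by omega))
      rw [if_neg h12] at h9
      omega

lemma rep_le_card (D : Finset ℕ) (n : ℕ) : rep (D : Set ℕ) n ≤ D.card := by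
  classical
  unfold rep
  have h : {p : ℕ × ℕ | p.1 ∈ (D : Set ℕ) ∧ p.2 ∈ (D : Set ℕ) ∧ p.1 + p.2 = n} ⊆
      ((D.image (fun a => (a, n - a)) : Finset (ℕ × ℕ)) : Set (ℕ × ℕ)) := by
    rintro ⟨a, b⟩ ⟨h1, h2, h3⟩
    rw [mem_coe, mem_image]
    refine ⟨a, h1, ?_⟩
    simp only [Prod.mk.injEq, true_and]
    simp only at h3
    omega
  refine (Set.ncard_le_ncard h (finite_toSet _)).trans ?_
  rw [Set.ncard_coe_finset]
  exact card_image_le

lemma one_le_rep (A : Set ℕ) (s x : ℕ) (h1 : x ∈ A) (h2 : s - x ∈ A) (h3 : x ≤ s) :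
    1 ≤ rep A s := by
  unfold rep
  rw [Nat.one_le_iff_ne_zero, Ne, Set.ncard_eq_zero (rep_finite A s)]
  intro h
  have : (x, s - x) ∈ {p : ℕ × ℕ | p.1 ∈ A ∧ p.2 ∈ A ∧ p.1 + p.2 = s} :=
    ⟨h1, h2, by simp only; omega⟩
  rw [h] at this
  exact this

/-- **Targets below the square root.** -/
theorem cover_sparse (C η : ℝ) (hη : 0 < η) : ∃ K : ℕ, ∀ S : Set ℕ,
    (∀ x : ℕ, 1 ≤ x → (cnt S x : ℝ) ≤ C * (x : ℝ) ^ (1 / 2 - η)) →
    ∃ A : Set ℕ, (∀ s ∈ S, 1 ≤ rep A s) ∧ ∀ n, rep A n ≤ K := by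
  classical
  set C' := max C 1 with hC'
  set η' := min η (1 / 4) with hη'
  have hη'0 : 0 < η' := lt_min hη (by norm_num)
  obtain ⟨U, hU⟩ := exists_nat_ge (3 / η')
  obtain ⟨k0, hk0, hk2⟩ : ∃ k0 : ℕ, 2 ≤ k0 ∧ ∀ k : ℕ, k0 ≤ k → 64 * C' ^ 2 ≤ (2 : ℝ) ^ (η' * k) := by
    obtain ⟨k1, hk1⟩ := exists_nat_gt (128 * C' ^ 2 / η')
    refine ⟨max 2 k1, le_max_left _ _, fun k hk => ?_⟩
    have h1 : (k1 : ℝ) ≤ k := by exact_mod_cast (le_max_right _ _).trans hk
    have h2 : 128 * C' ^ 2 ≤ η' * k := by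
      rw [div_lt_iff₀ hη'0] at hk1
      nlinarith
    have h3 : (2 : ℝ) ^ (η' * k) = Real.exp (Real.log 2 * (η' * k)) := by
      rw [Real.rpow_def_of_pos (by norm_num)]
    have h4 := Real.add_one_le_exp (Real.log 2 * (η' * k))
    have h5 : (1 / 2 : ℝ) ≤ Real.log 2 := by linarith [Real.log_two_gt_d9]
    have h6 : (0 : ℝ) ≤ η' * k := by positivity
    rw [h3]
    nlinarith
  refine ⟨1 + 2 ^ k0 + 4 * (4 * U + 2), fun S hS => ?_⟩
  have hS' : ∀ x : ℕ, 1 ≤ x → (cnt S x : ℝ) ≤ C' * (x : ℝ) ^ (1 / 2 - η') := by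
    intro x hx
    refine (hS x hx).trans ?_
    have hx1 : (1 : ℝ) ≤ x := by exact_mod_cast hx
    apply mul_le_mul (le_max_left _ _) _ (by positivity) (by positivity)
    apply Real.rpow_le_rpow_of_exponent_le hx1
    have := min_le_left η (1 / 4)
    linarith
  let P : ℕ → Finset ℕ → Prop := fun k D => D ⊆ range (2 ^ k) ∧ D.card ≤ 1 + 2 * cnt S (2 ^ k) ∧
    (∀ s ∈ S, s < 2 ^ k → ∃ x ∈ D, x ≤ s ∧ s - x ∈ D)
  let R : ℕ → Finset ℕ → Finset ℕ → Prop := fun k D D' => D ⊆ D' ∧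
    (∀ a ∈ D', a ∉ D → 2 ^ (k - 2) ≤ a) ∧
    ∀ n, rep (D' : Set ℕ) n ≤ rep (D : Set ℕ) n +
        (if 2 ^ (k - 2) ≤ n ∧ n < 2 ^ (k + 2) then 4 * U + 2 else 0)
  have hstep : ∀ (i : ℕ) (D : {D : Finset ℕ // P (k0 + i) D}),
      ∃ D' : {D : Finset ℕ // P (k0 + (i + 1)) D}, R (k0 + i) D.1 D'.1 := by
    intro i D
    obtain ⟨D', h1, h2, h3, h4, h5, h6⟩ := scale_cover2 C' η' (le_max_right _ _) hη'0
      (min_le_right _ _) U hU (k0 + i) (by omega) (hk2 _ (by omega)) S hS' D.1 D.2.1 D.2.2.1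
      D.2.2.2
    exact ⟨⟨D', h2, h3, h5⟩, h1, h4, h6⟩
  choose F hF using hstep
  let D0 : Finset ℕ := insert 0 ((range (2 ^ k0)).filter (· ∈ S))
  have hD0 : P (k0 + 0) D0 := by
    refine ⟨?_, ?_, ?_⟩
    · intro a ha
      rcases mem_insert.1 ha with h | h
      · rw [h, mem_range]; positivity
      · exact (mem_filter.1 h).1
    · have h1 := card_insert_le 0 ((range (2 ^ k0)).filter (· ∈ S))
      have h2 : cnt S (2 ^ (k0 + 0)) = ((range (2 ^ k0)).filter (· ∈ S)).card := by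
        rw [cnt_eq_card]; rfl
      show (insert 0 ((range (2 ^ k0)).filter (· ∈ S))).card ≤ _
      omega
    · intro s hs hsk
      refine ⟨0, mem_insert_self _ _, Nat.zero_le _, ?_⟩
      rw [Nat.sub_zero]
      exact mem_insert_of_mem (mem_filter.2 ⟨mem_range.2 hsk, hs⟩)
  let seq : (i : ℕ) → {D : Finset ℕ // P (k0 + i) D} := fun i =>
    Nat.rec (motive := fun i => {D : Finset ℕ // P (k0 + i) D}) ⟨D0, hD0⟩ (fun i D => F i D) i
  have hseq : ∀ i, R (k0 + i) (seq i).1 (seq (i + 1)).1 := fun i => hF i (seq i)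
  have hmono : ∀ i j, i ≤ j → (seq i).1 ⊆ (seq j).1 := by
    intro i j hij
    induction j, hij using Nat.le_induction with
    | base => exact subset_rfl
    | succ j _ ih => exact ih.trans (hseq j).1
  have hlate : ∀ i j, i ≤ j → ∀ a ∈ (seq j).1, a ∉ (seq i).1 → 2 ^ (k0 + i - 2) ≤ a := by
    intro i j hij
    induction j, hij using Nat.le_induction with
    | base => intro a h1 h2; exact absurd h1 h2
    | succ j hj ih =>
      intro a h1 h2
      by_cases h3 : a ∈ (seq j).1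
      · exact ih a h3 h2
      · have h4 := (hseq j).2.1 a h1 h3
        exact le_trans (Nat.pow_le_pow_right (by norm_num) (by omega)) h4
  have hrep : ∀ i n, rep ((seq i).1 : Set ℕ) n ≤ rep ((seq 0).1 : Set ℕ) n + (4 * U + 2) *
      ((range i).filter (fun j => 2 ^ (k0 + j - 2) ≤ n ∧ n < 2 ^ (k0 + j + 2))).card := by
    intro i n
    induction i with
    | zero => simp
    | succ i ih =>
      have h1 := (hseq i).2.2 n
      rw [range_add_one, filter_insert]
      by_cases h2 : 2 ^ (k0 + i - 2) ≤ n ∧ n < 2 ^ (k0 + i + 2)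
      · rw [if_pos h2] at h1
        rw [if_pos h2, card_insert_of_notMem (by simp)]
        nlinarith
      · rw [if_neg h2] at h1
        rw [if_neg h2]
        omega
  have hfour : ∀ i n, ((range i).filter (fun j => 2 ^ (k0 + j - 2) ≤ n ∧
      n < 2 ^ (k0 + j + 2))).card ≤ 4 := by
    intro i n
    have h1 : ((range i).filter (fun j => 2 ^ (k0 + j - 2) ≤ n ∧ n < 2 ^ (k0 + j + 2))).card ≤
        (Ico (Nat.log 2 n - 1) (Nat.log 2 n + 3)).card := by
      apply card_le_card_of_injOn (fun j => k0 + j)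
      · intro j hj
        rw [mem_coe, mem_filter] at hj
        show k0 + j ∈ ((Ico (Nat.log 2 n - 1) (Nat.log 2 n + 3) : Finset ℕ) : Set ℕ)
        rw [mem_coe, mem_Ico]
        have hn0 : n ≠ 0 := by
          intro h
          have := hj.2.1
          have h2 : 0 < 2 ^ (k0 + j - 2) := by positivity
          omega
        have h3 := Nat.le_log_of_pow_le (by norm_num) hj.2.1
        have h4 := Nat.log_lt_of_lt_pow hn0 hj.2.2
        omega
      · intro a _ b _ h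
        simp only at h
        omega
    refine h1.trans ?_
    rw [Nat.card_Ico]
    omega
  refine ⟨{a | ∃ i, a ∈ (seq i).1}, ?_, ?_⟩
  · intro s hs
    have h1 : s < 2 ^ (k0 + s) := lt_of_lt_of_le Nat.lt_two_pow_self
      (Nat.pow_le_pow_right (by norm_num) (by omega))
    obtain ⟨x, hx1, hx2, hx3⟩ := (seq s).2.2.2 s hs h1
    exact one_le_rep _ s x ⟨s, hx1⟩ ⟨s, hx3⟩ hx2
  · intro n
    set i := n + 2 with hi
    have h1 : n < 2 ^ (k0 + i - 2) := lt_of_lt_of_le Nat.lt_two_pow_self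
      (Nat.pow_le_pow_right (by norm_num) (by omega))
    have h2 : rep {a | ∃ i, a ∈ (seq i).1} n = rep ((seq i).1 : Set ℕ) n := by
      apply rep_lt_congr _ _ (2 ^ (k0 + i - 2)) n h1
      intro a ha
      rw [mem_coe]
      constructor
      · rintro ⟨j, hj⟩
        by_cases hji : j ≤ i
        · exact hmono j i hji hj
        · by_contra hcon
          have := hlate i j (by omega) a hj hcon
          omega
      · intro h; exact ⟨i, h⟩
    rw [h2]
    have h3 := hrep i n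
    have h4 := hfour i n
    have h5 : rep ((seq 0).1 : Set ℕ) n ≤ 1 + 2 ^ k0 := by
      refine (rep_le_card _ n).trans ?_
      show (insert 0 ((range (2 ^ k0)).filter (· ∈ S))).card ≤ _
      have h6 := card_insert_le 0 ((range (2 ^ k0)).filter (· ∈ S))
      have h7 := card_filter_le (range (2 ^ k0)) (· ∈ S)
      rw [card_range] at h7
      omega
    have h6 := Nat.mul_le_mul_left (4 * U + 2) h4
    omega

end Pool.Agent.H38.SP
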