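import Pool.Agent.H38.SP.F

/-!
# Thin sets which are contained in no counterexample
-/

set_option autoImplicit false

open Finset Filter

namespace Pool.Agent.H38.SP

/-- the sequences which govern the construction -/
structure Kit where
  N : ℕ → ℕ
  s : ℕ → ℕ
  n : ℕ → ℕ
  hN : ∀ t, 1 ≤ N t
  hs : ∀ t, 20 * N t < s t
  hn : ∀ t, 100 * s t ≤ n t
  hNn : ∀ t, N (t + 1) = n t + 1

namespace Kit

variable (K : Kit)

/-- the gap number `i` -/
def G (i f : ℕ) : Prop := 10 * K.N i ≤ f ∧ f < K.s i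

/-- admissible finite sets -/
def Adm (F : Finset ℕ) (t : ℕ) : Prop :=
  (∀ f ∈ F, ∃ i ≤ t, K.G i f) ∧ ∀ f ∈ F, ∀ f' ∈ F, ∀ i, K.G i f → K.G i f' → f = f'

/-- an enumeration of the finite sets, each of them occurring infinitely often -/
noncomputable def dec (t : ℕ) : Finset ℕ := (Encodable.decode (α := Finset ℕ) t.unpair.1).getD ∅

open Classical in
/-- the family -/
noncomputable def Fam (t : ℕ) : Finset ℕ := if K.Adm (dec t) t then dec t else ∅

/-- the set -/
def A0 : Set ℕ := {a | ∃ t, ∃ f ∈ K.Fam t, a = K.n t - f}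

lemma N_mono (i j : ℕ) (h : i ≤ j) : K.N i ≤ K.N j := by
  induction j, h using Nat.le_induction with
  | base => exact le_rfl
  | succ j _ ih =>
    have h1 := K.hNn j
    have h2 := K.hs j
    have h3 := K.hn j
    omega

lemma n_lt_N (i j : ℕ) (h : i < j) : K.n i < K.N j := by
  have h1 := K.N_mono (i + 1) j h
  have h2 := K.hNn i
  omega

lemma s_mono (i j : ℕ) (h : i ≤ j) : K.s i ≤ K.s j := by
  rcases h.lt_or_eq with h | h
  · have h1 := K.n_lt_N i j h
    have h2 := K.hn i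
    have h3 := K.hs j
    omega
  · rw [h]

lemma le_N (t : ℕ) : t < K.N t := by
  induction t with
  | zero => exact K.hN 0
  | succ t ih =>
    have h1 := K.hNn t
    have h2 := K.hs t
    have h3 := K.hn t
    omega

lemma gap_lt (i j f f' : ℕ) (hij : i < j) (h : K.G i f) (h' : K.G j f') : 1000 * f < f' := by
  have h1 := K.n_lt_N i j hij
  have h2 := K.hn i
  have h3 := h.2
  have h4 := h'.1
  omega

lemma gap_inj (i j f : ℕ) (h : K.G i f) (h' : K.G j f) : i = j := by
  rcases Nat.lt_trichotomy i j with h1 | h1 | h1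
  · have := K.gap_lt i j f f h1 h h'
    omega
  · exact h1
  · have := K.gap_lt j i f f h1 h' h
    omega

lemma fam_adm (t : ℕ) : K.Adm (K.Fam t) t := by
  classical
  unfold Fam
  split_ifs with h
  · exact h
  · exact ⟨fun f hf => by simp at hf, fun f hf => by simp at hf⟩

lemma fam_lt (t f : ℕ) (hf : f ∈ K.Fam t) : f < K.s t := by
  obtain ⟨i, hi, h⟩ := (K.fam_adm t).1 f hf
  exact lt_of_lt_of_le h.2 (K.s_mono i t hi)

lemma fam_surj (F : Finset ℕ) (t0 : ℕ) (h : K.Adm F t0) : ∃ t, K.Fam t = F := by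
  classical
  set t := Nat.pair (Encodable.encode F) t0 with ht
  have h1 : t0 ≤ t := Nat.right_le_pair _ _
  have h2 : dec t = F := by
    unfold dec
    rw [ht, Nat.unpair_pair]
    simp
  refine ⟨t, ?_⟩
  unfold Fam
  rw [h2, if_pos]
  refine ⟨fun f hf => ?_, h.2⟩
  obtain ⟨i, hi, h3⟩ := h.1 f hf
  exact ⟨i, hi.trans h1, h3⟩

/-- sums of two lacunary sets -/
lemma pair_unique (t u f1 g1 f2 g2 : ℕ) (h1 : f1 ∈ K.Fam t) (h2 : f2 ∈ K.Fam t)
    (_ : g1 ∈ K.Fam u) (_ : g2 ∈ K.Fam u) (h3 : f1 + g1 = f2 + g2) (h4 : g1 ≤ f1)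
    (h5 : g2 ≤ f2) : f1 = f2 := by
  obtain ⟨i, -, hi⟩ := (K.fam_adm t).1 f1 h1
  obtain ⟨j, -, hj⟩ := (K.fam_adm t).1 f2 h2
  rcases Nat.lt_trichotomy i j with h | h | h
  · have := K.gap_lt i j f1 f2 h hi hj
    omega
  · rw [h] at hi
    exact (K.fam_adm t).2 f1 h1 f2 h2 j hi hj
  · have := K.gap_lt j i f2 f1 h hj hi
    omega

lemma n_lt_n (u v : ℕ) (h : u < v) : 2000 * K.n u < K.n v := by
  have h1 := K.n_lt_N u v h
  have h2 := K.hn v
  have h3 := K.hs v
  omega

open Classical in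
lemma few_shifts (t : ℕ) (c : ℤ) :
    ((K.Fam t).filter (fun f : ℕ => ∃ b ∈ K.A0, (b : ℤ) = c + f)).card ≤ 2 := by
  set X := (K.Fam t).filter (fun f : ℕ => ∃ b ∈ K.A0, (b : ℤ) = c + f) with hX
  rcases lt_or_ge c 0 with hc | hc
  · -- at most one
    have h1 : X.card ≤ 1 := by
      rw [card_le_one]
      have key : ∀ f ∈ X, ∀ i, K.G i f → 9 * (f : ℤ) ≤ 10 * (-c) ∧ -c ≤ f := by
        intro f hf i hi
        rw [hX, mem_filter] at hf
        obtain ⟨hf1, b, ⟨u, g, hg, hb⟩, hbc⟩ := hf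
        have hg' := K.fam_lt u g hg
        have h2 := K.hn u
        have h3 : u < i := by
          by_contra hcon
          push Not at hcon
          have h4 := K.s_mono i u hcon
          have h5 := hi.2
          omega
        have h4 := K.n_lt_N u i h3
        have h5 := hi.1
        omega
      intro f1 hf1 f2 hf2
      have hm1 := (mem_filter.1 hf1).1
      have hm2 := (mem_filter.1 hf2).1
      obtain ⟨i, -, hi⟩ := (K.fam_adm t).1 f1 hm1
      obtain ⟨j, -, hj⟩ := (K.fam_adm t).1 f2 hm2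
      have k1 := key f1 hf1 i hi
      have k2 := key f2 hf2 j hj
      rcases Nat.lt_trichotomy i j with h | h | h
      · have := K.gap_lt i j f1 f2 h hi hj
        omega
      · rw [h] at hi
        exact (K.fam_adm t).2 f1 hm1 f2 hm2 j hi hj
      · have := K.gap_lt j i f2 f1 h hj hi
        omega
    omega
  · by_cases hX1 : X.card ≤ 1
    · omega
    push Not at hX1
    obtain ⟨f0, hf0⟩ := card_pos.1 (by omega : 0 < X.card)
    have key : ∀ f ∈ X, ∀ u g b, g ∈ K.Fam u → b = K.n u - g → (b : ℤ) = c + f →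
        100 * (f : ℤ) < K.n u ∧ 99 * (K.n u : ℤ) ≤ 100 * b ∧ (b : ℤ) ≤ K.n u := by
      intro f hf u g b hg hb hbc
      obtain ⟨i, -, hi⟩ := (K.fam_adm t).1 f (mem_filter.1 hf).1
      have hg' := K.fam_lt u g hg
      have h2 := K.hn u
      have h3 : i ≤ u := by
        by_contra hcon
        push Not at hcon
        have h4 := K.n_lt_N u i hcon
        have h5 := hi.1
        omega
      have h4 := K.s_mono i u h3
      have h5 := hi.2
      omega
    obtain ⟨b0, ⟨u0, g0, hg0, hb0⟩, hbc0⟩ := (mem_filter.1 hf0).2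
    have k0 := key f0 hf0 u0 g0 b0 hg0 hb0 hbc0
    have hall : ∀ f ∈ X, ∃ g ∈ K.Fam u0, (f : ℤ) + g = K.n u0 - c := by
      intro f hf
      obtain ⟨b, ⟨u, g, hg, hb⟩, hbc⟩ := (mem_filter.1 hf).2
      have k1 := key f hf u g b hg hb hbc
      have hu : u = u0 := by
        rcases Nat.lt_trichotomy u u0 with h | h | h
        · have := K.n_lt_n u u0 h
          omega
        · exact h
        · have := K.n_lt_n u0 u h
          omega
      subst hu
      refine ⟨g, hg, ?_⟩
      have hg' := K.fam_lt u g hg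
      have h2 := K.hn u
      omega
    have hsub : X ⊆ (X.filter (fun f : ℕ => ∃ g ∈ K.Fam u0, (f : ℤ) + g = K.n u0 - c ∧ g ≤ f)) ∪
        (X.filter (fun f : ℕ => ∃ g ∈ K.Fam u0, (f : ℤ) + g = K.n u0 - c ∧ f ≤ g)) := by
      intro f hf
      obtain ⟨g, hg, h⟩ := hall f hf
      rw [mem_union]
      rcases le_total g f with h1 | h1
      · exact Or.inl (mem_filter.2 ⟨hf, g, hg, h, h1⟩)
      · exact Or.inr (mem_filter.2 ⟨hf, g, hg, h, h1⟩)
    have c1 : (X.filter (fun f : ℕ => ∃ g ∈ K.Fam u0, (f : ℤ) + g = K.n u0 - c ∧ g ≤ f)).card ≤ 1 := by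
      rw [card_le_one]
      intro f1 h1 f2 h2
      obtain ⟨hx1, g1, hg1, e1, l1⟩ := mem_filter.1 h1
      obtain ⟨hx2, g2, hg2, e2, l2⟩ := mem_filter.1 h2
      exact K.pair_unique t u0 f1 g1 f2 g2 (mem_filter.1 hx1).1 (mem_filter.1 hx2).1 hg1 hg2
        (by omega) l1 l2
    have c2 : (X.filter (fun f : ℕ => ∃ g ∈ K.Fam u0, (f : ℤ) + g = K.n u0 - c ∧ f ≤ g)).card ≤ 1 := by
      rw [card_le_one]
      intro f1 h1 f2 h2
      obtain ⟨hx1, g1, hg1, e1, l1⟩ := mem_filter.1 h1
      obtain ⟨hx2, g2, hg2, e2, l2⟩ := mem_filter.1 h2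
      have h3 := K.pair_unique u0 t g1 f1 g2 f2 hg1 hg2 (mem_filter.1 hx1).1 (mem_filter.1 hx2).1
        (by omega) l1 l2
      omega
    have h6 := (card_le_card hsub).trans (card_union_le _ _)
    omega

/-- the representation function of the set is at most `4` -/
theorem rep_A0 (m : ℕ) : rep K.A0 m ≤ 4 := by
  classical
  have hfin := rep_finite K.A0 m
  set P : Set (ℕ × ℕ) := {p : ℕ × ℕ | p.1 ∈ K.A0 ∧ p.2 ∈ K.A0 ∧ p.1 + p.2 = m} with hP
  set P1 : Set (ℕ × ℕ) := {p | p ∈ P ∧ p.2 ≤ p.1} with hP1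
  set P2 : Set (ℕ × ℕ) := {p | p ∈ P ∧ p.1 ≤ p.2} with hP2
  have hfin1 : P1.Finite := hfin.subset fun p hp => hp.1
  have hfin2 : P2.Finite := hfin.subset fun p hp => hp.1
  have h1 : P1.ncard ≤ 2 := by
    rcases P1.eq_empty_or_nonempty with h0 | ⟨p0, hp0⟩
    · rw [h0]; simp
    obtain ⟨⟨⟨t, f0, hf0, e0⟩, -, hsum0⟩, hle0⟩ := hp0
    have hf0' := K.fam_lt t f0 hf0
    have hnt := K.hn t
    have h2 : P1.ncard ≤ ((K.Fam t).filter (fun f : ℕ => ∃ b ∈ K.A0,
        (b : ℤ) = ((m : ℤ) - K.n t) + f)).card := by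
      rw [← Set.ncard_coe_finset]
      apply Set.ncard_le_ncard_of_injOn (fun p => K.n t - p.1)
      · rintro p ⟨⟨⟨t', f, hf, e⟩, hb, hsum⟩, hle⟩
        have hf' := K.fam_lt t' f hf
        have hnt' := K.hn t'
        have ht : t' = t := by
          rcases Nat.lt_trichotomy t' t with h | h | h
          · have := K.n_lt_n t' t h
            omega
          · exact h
          · have := K.n_lt_n t t' h
            omega
        subst ht
        show K.n t' - p.1 ∈ (((K.Fam t').filter _ : Finset ℕ) : Set ℕ)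
        have e2 : K.n t' - p.1 = f := by omega
        rw [e2, mem_coe, mem_filter]
        refine ⟨hf, p.2, hb, ?_⟩
        omega
      · rintro p ⟨⟨⟨t', f, hf, e⟩, hb, hsum⟩, hle⟩ q ⟨⟨⟨t'', f'', hf'', e''⟩, hb'', hsum''⟩, hle''⟩ hpq
        have hf' := K.fam_lt t' f hf
        have hnt' := K.hn t'
        have hf3 := K.fam_lt t'' f'' hf''
        have hnt3 := K.hn t''
        have ht : t' = t := by
          rcases Nat.lt_trichotomy t' t with h | h | h
          · have := K.n_lt_n t' t h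
            omega
          · exact h
          · have := K.n_lt_n t t' h
            omega
        have ht2 : t'' = t := by
          rcases Nat.lt_trichotomy t'' t with h | h | h
          · have := K.n_lt_n t'' t h
            omega
          · exact h
          · have := K.n_lt_n t t'' h
            omega
        simp only at hpq
        subst ht
        subst ht2
        have e5 : p.1 = q.1 := by omega
        exact Prod.ext e5 (by omega)
    exact h2.trans (K.few_shifts t _)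
  have h2 : P2.ncard ≤ P1.ncard := by
    apply Set.ncard_le_ncard_of_injOn Prod.swap _ _ hfin1
    · rintro p ⟨⟨ha, hb, hsum⟩, hle⟩
      exact ⟨⟨hb, ha, by simp only [Prod.fst_swap, Prod.snd_swap]; omega⟩, hle⟩
    · intro p _ q _ h
      exact Prod.swap_injective h
  have h3 : P ⊆ P1 ∪ P2 := by
    intro p hp
    rcases le_total p.2 p.1 with h | h
    · exact Or.inl ⟨hp, h⟩
    · exact Or.inr ⟨hp, h⟩
  have h4 : P.ncard ≤ P1.ncard + P2.ncard :=
    (Set.ncard_le_ncard h3 (hfin1.union hfin2)).trans (Set.ncard_union_le _ _)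
  show P.ncard ≤ 4
  omega

/-- supersets which meet infinitely many gaps -/
theorem unbounded_of_gaps (A : Set ℕ) (hA : K.A0 ⊆ A)
    (hinf : {i | ∃ f ∈ A, K.G i f}.Infinite) (M : ℕ) : ∃ m, M < rep A m := by
  classical
  obtain ⟨I, hI, hIc⟩ := hinf.exists_subset_card_eq (M + 1)
  have hch : ∀ i : ℕ, ∃ f : ℕ, i ∈ I → f ∈ A ∧ K.G i f := by
    intro i
    by_cases hi : i ∈ I
    · obtain ⟨f, hf1, hf2⟩ := hI hi
      exact ⟨f, fun _ => ⟨hf1, hf2⟩⟩
    · exact ⟨0, fun h => absurd h hi⟩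
  choose f hf using hch
  have hinj : Set.InjOn f (I : Set ℕ) := by
    intro i hi j hj h
    have h1 := (hf i (mem_coe.1 hi)).2
    have h2 := (hf j (mem_coe.1 hj)).2
    rw [← h] at h2
    exact K.gap_inj i j _ h1 h2
  set F := I.image f with hF
  have hFc : F.card = M + 1 := by rw [hF, card_image_of_injOn hinj, hIc]
  have hadm : K.Adm F (I.sup id) := by
    constructor
    · intro y hy
      obtain ⟨i, hi, rfl⟩ := mem_image.1 hy
      exact ⟨i, le_sup (f := id) hi, (hf i hi).2⟩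
    · intro y hy z hz i h1 h2
      obtain ⟨a, ha, rfl⟩ := mem_image.1 hy
      obtain ⟨b, hb, rfl⟩ := mem_image.1 hz
      have h3 := K.gap_inj _ _ _ (hf a ha).2 h1
      have h4 := K.gap_inj _ _ _ (hf b hb).2 h2
      rw [h3, h4]
  obtain ⟨t, ht⟩ := K.fam_surj F _ hadm
  refine ⟨K.n t, ?_⟩
  have h1 : ((F.image (fun y => (y, K.n t - y)) : Finset (ℕ × ℕ)) : Set (ℕ × ℕ)) ⊆
      {p : ℕ × ℕ | p.1 ∈ A ∧ p.2 ∈ A ∧ p.1 + p.2 = K.n t} := by
    intro p hp
    rw [mem_coe, mem_image] at hp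
    obtain ⟨y, hy, rfl⟩ := hp
    have hy' : y ∈ K.Fam t := by rw [ht]; exact hy
    have h2 := K.fam_lt t y hy'
    have h3 := K.hn t
    obtain ⟨i, hi, hfi⟩ := mem_image.1 hy
    refine ⟨?_, hA ⟨t, y, hy', rfl⟩, ?_⟩
    · show y ∈ A
      rw [← hfi]
      exact (hf i hi).1
    · show y + (K.n t - y) = K.n t
      omega
  have h2 := Set.ncard_le_ncard h1 (rep_finite A (K.n t))
  rw [Set.ncard_coe_finset, card_image_of_injective _ (by
    intro a b h
    exact (Prod.mk.inj h).1), hFc] at h2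
  exact lt_of_lt_of_le (Nat.lt_succ_self M) h2

lemma fam_card (t : ℕ) : (K.Fam t).card ≤ t + 1 := by
  classical
  have h := K.fam_adm t
  have hch : ∀ f : ℕ, ∃ i : ℕ, f ∈ K.Fam t → i ≤ t ∧ K.G i f := by
    intro f
    by_cases hf : f ∈ K.Fam t
    · obtain ⟨i, h1, h2⟩ := h.1 f hf
      exact ⟨i, fun _ => ⟨h1, h2⟩⟩
    · exact ⟨0, fun h => absurd h hf⟩
  choose g hg using hch
  have h1 : (K.Fam t).card ≤ (range (t + 1)).card := by
    apply card_le_card_of_injOn g
    · intro f hf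
      show g f ∈ ((range (t + 1) : Finset ℕ) : Set ℕ)
      rw [mem_coe, mem_range]
      have := (hg f (mem_coe.1 hf)).1
      omega
    · intro a ha b hb hab
      have h2 := (hg a (mem_coe.1 ha)).2
      have h3 := (hg b (mem_coe.1 hb)).2
      rw [← hab] at h3
      exact h.2 a (mem_coe.1 ha) b (mem_coe.1 hb) _ h2 h3
  rwa [card_range] at h1

/-- the set is thin -/
theorem thin (φ : ℕ → ℕ) (hφ : ∀ t x, K.n t ≤ 2 * x → (t + 1) ^ 2 ≤ φ x) (x : ℕ) :
    cnt K.A0 x ≤ φ x := by
  classical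
  -- the first block beyond `x`
  have hex : ∃ t, 2 * x < K.n t := by
    refine ⟨2 * x, ?_⟩
    have h1 := K.le_N (2 * x)
    have h2 := K.hs (2 * x)
    have h3 := K.hn (2 * x)
    omega
  set T := Nat.find hex with hT
  have hT1 : 2 * x < K.n T := Nat.find_spec hex
  have h1 : (range x).filter (· ∈ K.A0) ⊆
      (range T).biUnion (fun t => (K.Fam t).image (fun f => K.n t - f)) := by
    intro a ha
    rw [mem_filter, mem_range] at ha
    obtain ⟨hax, t, f, hf, e⟩ := ha
    rw [mem_biUnion]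
    refine ⟨t, ?_, mem_image.2 ⟨f, hf, e.symm⟩⟩
    rw [mem_range]
    by_contra hcon
    push Not at hcon
    have h2 : K.n T ≤ K.n t := by
      rcases hcon.lt_or_eq with h | h
      · have := K.n_lt_n T t h
        omega
      · rw [h]
    have h3 := K.fam_lt t f hf
    have h4 := K.hn t
    omega
  rw [cnt_eq_card]
  have h2 : ((range x).filter (· ∈ K.A0)).card ≤ T ^ 2 := by
    refine (card_le_card h1).trans (card_biUnion_le.trans ?_)
    calc ∑ t ∈ range T, ((K.Fam t).image (fun f => K.n t - f)).card ≤ ∑ t ∈ range T, T := by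
          apply sum_le_sum
          intro t ht
          refine card_image_le.trans ((K.fam_card t).trans ?_)
          have := mem_range.1 ht
          omega
      _ = T ^ 2 := by rw [sum_const, card_range, smul_eq_mul, pow_two]
  rcases Nat.eq_zero_or_pos T with h0 | h0
  · rw [h0] at h2
    omega
  · have h3 : ¬ 2 * x < K.n (T - 1) := Nat.find_min hex (by omega)
    have h4 := hφ (T - 1) x (by omega)
    have h5 : T - 1 + 1 = T := by omega
    rw [h5] at h4
    omega

end Kit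

/-- **Thin sets which are contained in no counterexample.** -/
theorem killer (φ : ℕ → ℕ) (hφ : Tendsto φ atTop atTop) (S : Set ℕ) (hS : S.Infinite) :
    ∃ A0 : Set ℕ, (∀ x, cnt A0 x ≤ φ x) ∧ (∀ n, rep A0 n ≤ 4) ∧
      ∀ A : Set ℕ, A0 ⊆ A →
        ((∀ᶠ x in atTop, φ x ≤ cnt A x) ∨ {s | s ∈ S ∧ rep A s = 0}.Finite) →
        ∀ K : ℕ, ∃ n, K < rep A n := by
  classical
  have hg1 : ∀ N : ℕ, ∃ s : ℕ, 20 * N < s ∧ (∃ σ ∈ S, 20 * N ≤ σ ∧ σ < s) ∧
      ∀ x, s ≤ x → 10 * N < φ x := by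
    intro N
    obtain ⟨x0, hx0⟩ := eventually_atTop.1 (hφ.eventually_gt_atTop (10 * N))
    obtain ⟨σ, hσ1, hσ2⟩ := hS.exists_gt (20 * N)
    refine ⟨max x0 (σ + 1), by have := le_max_right x0 (σ + 1); omega,
      ⟨σ, hσ1, hσ2.le, by have := le_max_right x0 (σ + 1); omega⟩, fun x hx => ?_⟩
    exact hx0 x ((le_max_left _ _).trans hx)
  choose g1 hg1 using hg1
  have hg2 : ∀ s t : ℕ, ∃ n : ℕ, 100 * s ≤ n ∧ ∀ x, n ≤ 2 * x → (t + 1) ^ 2 ≤ φ x := by
    intro s t
    obtain ⟨x0, hx0⟩ := eventually_atTop.1 (hφ.eventually_ge_atTop ((t + 1) ^ 2))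
    refine ⟨max (100 * s) (2 * x0), le_max_left _ _, fun x hx => hx0 x ?_⟩
    have := (le_max_right (100 * s) (2 * x0)).trans hx
    omega
  choose g2 hg2 using hg2
  let N : ℕ → ℕ := fun t => Nat.rec (motive := fun _ => ℕ) 1 (fun t N => g2 (g1 N) t + 1) t
  have hNs : ∀ t, N (t + 1) = g2 (g1 (N t)) t + 1 := fun t => rfl
  have hN0 : N 0 = 1 := rfl
  let K : Kit :=
    { N := N
      s := fun t => g1 (N t)
      n := fun t => g2 (g1 (N t)) t
      hN := fun t => by
        cases t with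
        | zero => rw [hN0]
        | succ t => rw [hNs]; omega
      hs := fun t => (hg1 (N t)).1
      hn := fun t => (hg2 (g1 (N t)) t).1
      hNn := hNs }
  refine ⟨K.A0, K.thin φ (fun t x h => (hg2 (g1 (N t)) t).2 x h), K.rep_A0, ?_⟩
  intro A hA h
  apply K.unbounded_of_gaps A hA
  -- all late gaps are met
  obtain ⟨t0, ht0⟩ : ∃ t0, ∀ t, t0 ≤ t → ∃ f ∈ A, K.G t f := by
    rcases h with h | h
    · obtain ⟨x0, hx0⟩ := eventually_atTop.1 h
      refine ⟨x0, fun t ht => ?_⟩
      have h1 : x0 ≤ K.s t := by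
        have h2 := K.le_N t
        have h3 := K.hs t
        omega
      have h2 := hx0 (K.s t) h1
      have h3 : 10 * K.N t < φ (K.s t) := (hg1 (N t)).2.2 _ le_rfl
      by_contra hcon
      push Not at hcon
      have h4 : cnt A (K.s t) ≤ 10 * K.N t := by
        rw [cnt_eq_card]
        have h5 : (range (K.s t)).filter (· ∈ A) ⊆ range (10 * K.N t) := by
          intro a ha
          rw [mem_filter, mem_range] at ha
          rw [mem_range]
          by_contra h6
          exact hcon a ha.2 ⟨by omega, ha.1⟩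
        refine (card_le_card h5).trans ?_
        rw [card_range]
      omega
    · obtain ⟨b, hb⟩ := h.bddAbove
      refine ⟨b + 1, fun t ht => ?_⟩
      obtain ⟨σ, hσ1, hσ2, hσ3⟩ := (hg1 (N t)).2.1
      have h1 : t < N t := K.le_N t
      have h2 : rep A σ ≠ 0 := by
        intro h3
        have := hb ⟨hσ1, h3⟩
        omega
      have h3 : {p : ℕ × ℕ | p.1 ∈ A ∧ p.2 ∈ A ∧ p.1 + p.2 = σ}.Nonempty := by
        rw [Set.nonempty_iff_ne_empty]
        intro h4
        apply h2
        unfold rep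
        rw [h4]
        exact Set.ncard_empty _
      obtain ⟨⟨x, y⟩, hx, hy, hxy⟩ := h3
      simp only at hx hy hxy
      have hσ2' : 20 * K.N t ≤ σ := hσ2
      have hσ3' : σ < K.s t := hσ3
      rcases le_total x y with h5 | h5
      · exact ⟨y, hy, by omega, by omega⟩
      · exact ⟨x, hx, by omega, by omega⟩
  apply Set.infinite_of_not_bddAbove
  rintro ⟨b, hb⟩
  have := hb (ht0 (max t0 (b + 1)) (le_max_left _ _))
  have h2 := le_max_right t0 (b + 1)
  omega

end Pool.Agent.H38.SP
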