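import Pool.Agent.H38.SP.D

/-!
# Random targets
-/

set_option autoImplicit false

open Finset Filter MeasureTheory ProbabilityTheory

namespace Pool.Agent.H38.SP

/-- the random set `{n | ω ∈ E n}` -/
def rset {Ω : Type} (E : ℕ → Set Ω) (ω : Ω) : Set ℕ := {n | ω ∈ E n}

variable {Ω : Type} [MeasurableSpace Ω] {μ : Measure Ω}

lemma miss (E : ℕ → Set Ω) (hind : iIndepSet E μ) (hE : ∀ n, MeasurableSet (E n))
    (U : Finset ℕ) (p : ℝ) (hp : ∀ n ∈ U, p ≤ μ.real (E n)) :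
    μ.real (⋂ n ∈ U, (E n)ᶜ) ≤ Real.exp (-(p * U.card)) := by
  have := hind.isProbabilityMeasure
  have h1 := (iIndepSet_iff E μ).1 hind U (f := fun n => (E n)ᶜ)
    (fun i _ => (MeasurableSpace.measurableSet_generateFrom (Set.mem_singleton _)).compl)
  have h2 : μ.real (⋂ n ∈ U, (E n)ᶜ) = ∏ n ∈ U, μ.real (E n)ᶜ := by
    unfold Measure.real
    rw [h1, ENNReal.toReal_prod]
  rw [h2]
  calc ∏ n ∈ U, μ.real (E n)ᶜ ≤ ∏ n ∈ U, Real.exp (-p) := by
        apply Finset.prod_le_prod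
        · intro n _
          exact measureReal_nonneg
        · intro n hn
          rw [probReal_compl_eq_one_sub (hE n)]
          have h3 := hp n hn
          have h4 := Real.add_one_le_exp (-p)
          linarith
    _ = Real.exp (-(p * U.card)) := by
        rw [prod_const, ← Real.exp_nat_mul]
        congr 1
        ring

open Classical in
/-- one scale -/
theorem scale_random (E : ℕ → Set Ω) (hind : iIndepSet E μ) (hE : ∀ n, MeasurableSet (E n))
    (k H V T : ℕ) (hT : 1 ≤ T) (𝓒 : Finset (Finset ℕ)) (h𝓒 : (𝓒.card : ℝ) ≤ Real.exp H)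
    (p : ℝ) (hp0 : 0 ≤ p)
    (hp : ∀ n ∈ Ico (2 ^ k) (2 ^ (k + 1)), p ≤ μ.real (E n)) :
    ∃ bad : Set Ω, μ.real bad ≤ Real.exp (H + V - p * 2 ^ k / T) ∧
      ∀ ω, ω ∉ bad → ∀ A : Set ℕ, (∃ B ∈ 𝓒, ∀ a < 2 ^ (k + 1), a ∈ A ↔ a ∈ B) → ∀ v ≤ V,
        (∀ s ∈ rset E ω, s ∈ Ico (2 ^ k) (2 ^ (k + 1)) → v ≤ rep A s) →
        T * ((Ico (2 ^ k) (2 ^ (k + 1))).filter (fun n => rep A n < v)).card ≤ 2 ^ k := by
  have := hind.isProbabilityMeasure
  set Y := 2 ^ (k + 1) with hY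
  set I := Ico (2 ^ k) Y with hI
  set 𝓑 := 𝓒 ×ˢ range (V + 1) with h𝓑
  have h𝓑c : (𝓑.card : ℝ) ≤ Real.exp (H + V) := by
    rw [h𝓑, card_product, card_range, Real.exp_add]
    push_cast
    have h5 : ((V : ℝ) + 1) ≤ Real.exp V := Real.add_one_le_exp _
    exact mul_le_mul h𝓒 h5 (by positivity) (Real.exp_pos _).le
  let U : Finset ℕ × ℕ → Finset ℕ := fun q => I.filter (fun n => rep (q.1 : Set ℕ) n < q.2)
  set 𝓠 := 𝓑.filter (fun q => 2 ^ k < T * (U q).card) with h𝓠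
  have hT0 : (0 : ℝ) < T := by exact_mod_cast hT
  refine ⟨⋃ q ∈ 𝓠, ⋂ n ∈ U q, (E n)ᶜ, ?_, ?_⟩
  · have h1 : ∀ q ∈ 𝓠, μ.real (⋂ n ∈ U q, (E n)ᶜ) ≤ Real.exp (-(p * 2 ^ k / T)) := by
      intro q hq
      rw [h𝓠, mem_filter] at hq
      refine (miss E hind hE (U q) p (fun n hn => hp n (mem_filter.1 hn).1)).trans ?_
      apply Real.exp_le_exp.2
      have h2 : (2 : ℝ) ^ k < T * (U q).card := by exact_mod_cast hq.2
      have h3 : p * 2 ^ k / T ≤ p * (U q).card := by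
        rw [div_le_iff₀ hT0]
        nlinarith
      linarith
    calc μ.real (⋃ q ∈ 𝓠, ⋂ n ∈ U q, (E n)ᶜ) ≤ ∑ q ∈ 𝓠, μ.real (⋂ n ∈ U q, (E n)ᶜ) :=
          measureReal_biUnion_finset_le _ _
      _ ≤ ∑ q ∈ 𝓠, Real.exp (-(p * 2 ^ k / T)) := sum_le_sum h1
      _ = 𝓠.card * Real.exp (-(p * 2 ^ k / T)) := by rw [sum_const, nsmul_eq_mul]
      _ ≤ Real.exp (H + V) * Real.exp (-(p * 2 ^ k / T)) := by
          apply mul_le_mul_of_nonneg_right _ (Real.exp_pos _).le
          refine le_trans ?_ h𝓑c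
          exact_mod_cast card_le_card (filter_subset _ _)
      _ = _ := by rw [← Real.exp_add]; ring_nf
  · rintro ω hω A ⟨B, hB, hmem⟩ v hv hs
    have hB𝓑 : (B, v) ∈ 𝓑 := by
      rw [h𝓑, mem_product, mem_range]
      exact ⟨hB, by simp only; omega⟩
    have hrep : ∀ n ∈ I, rep A n = rep (B : Set ℕ) n := fun n hn =>
      rep_lt_congr A B Y n (mem_Ico.1 hn).2 hmem
    have hU : (I.filter (fun n => rep A n < v)) = U (B, v) := by
      apply filter_congr
      intro n hn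
      rw [hrep n hn]
    rw [hU]
    by_contra hcon
    push Not at hcon
    apply hω
    rw [Set.mem_iUnion₂]
    refine ⟨(B, v), mem_filter.2 ⟨hB𝓑, hcon⟩, ?_⟩
    rw [Set.mem_iInter₂]
    intro n hn hωn
    have h1 := mem_filter.1 hn
    have h2 := hs n hωn h1.1
    rw [hrep n h1.1] at h2
    exact absurd h1.2 (by simp only; omega)

lemma le_two_half (k : ℕ) : (k : ℝ) ≤ (2 : ℝ) ^ ((k + 2) / 2) := by
  have h1 : k ≤ 2 * ((k + 2) / 2) := by omega
  have h2 : ∀ m : ℕ, 2 * m ≤ 2 ^ m ∨ m = 0 := by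
    intro m
    induction m with
    | zero => exact Or.inr rfl
    | succ m ih =>
      left
      rcases ih with ih | ih
      · have : 1 ≤ 2 ^ m := Nat.one_le_two_pow
        rw [pow_succ]
        rcases Nat.eq_zero_or_pos m with h | h
        · rw [h]; norm_num
        · have : 2 ≤ 2 ^ m := by
            calc 2 = 2 ^ 1 := rfl
              _ ≤ 2 ^ m := Nat.pow_le_pow_right (by norm_num) h
          omega
      · rw [ih]; norm_num
  rcases h2 ((k + 2) / 2) with h | h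
  · exact_mod_cast h1.trans h
  · omega

open Classical in
/-- **Random targets, all large scales.** -/
theorem random_scales_gen (R v : ℕ) : ∃ C : ℝ, 0 < C ∧ ∀ (T : ℕ → ℕ) (Ω : Type)
    (_ : MeasurableSpace Ω)
    (μ : Measure Ω) (E : ℕ → Set Ω), iIndepSet E μ → (∀ n, MeasurableSet (E n)) →
    (∀ᶠ n : ℕ in atTop, C * T (Nat.log 2 n) / Real.sqrt n ≤ μ.real (E n)) →
    ∀ᵐ ω ∂μ, ∀ᶠ k in atTop, ∀ A : Set ℕ, Calm R k A →
      (∀ s ∈ rset E ω, s ∈ Ico (2 ^ k) (2 ^ (k + 1)) → v ≤ rep A s) →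
      T k * ((Ico (2 ^ k) (2 ^ (k + 1))).filter (fun n => rep A n < v)).card ≤ 2 ^ k := by
  obtain ⟨c, hc⟩ := calm_count R
  choose 𝓑 h𝓑1 h𝓑2 using hc
  refine ⟨4 * (c + v + 1), by positivity, ?_⟩
  intro T Ω _ μ E hind hE hp
  have := hind.isProbabilityMeasure
  obtain ⟨n0, hn0⟩ := eventually_atTop.1 hp
  have hk : ∀ k : ℕ, ∃ bad : Set Ω, μ.real bad ≤ Real.exp (-(k : ℝ)) ∧
      (n0 ≤ k → ∀ ω, ω ∉ bad → ∀ A : Set ℕ, Calm R k A →
        (∀ s ∈ rset E ω, s ∈ Ico (2 ^ k) (2 ^ (k + 1)) → v ≤ rep A s) →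
        T k * ((Ico (2 ^ k) (2 ^ (k + 1))).filter (fun n => rep A n < v)).card ≤ 2 ^ k) := by
    intro k
    by_cases hTk : T k = 0
    · refine ⟨∅, by simpa using (Real.exp_pos _).le, fun _ ω _ A _ _ => ?_⟩
      rw [hTk]; simp
    have hT : 1 ≤ T k := Nat.one_le_iff_ne_zero.2 hTk
    have hT0 : (0 : ℝ) < T k := by exact_mod_cast hT
    by_cases hk0 : n0 ≤ k
    · set P : ℝ := (2 : ℝ) ^ ((k + 2) / 2) with hP
      have hP0 : 0 < P := by positivity
      have hP1 : 1 ≤ P := one_le_pow₀ (by norm_num)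
      have hPP : P * P ≤ 4 * 2 ^ k := by
        have h1 : P * P = (2 : ℝ) ^ (2 * ((k + 2) / 2)) := by
          rw [hP, ← pow_add]; congr 1; omega
        have h2 : (4 : ℝ) * 2 ^ k = 2 ^ (k + 2) := by rw [pow_add]; ring
        rw [h1, h2]
        exact pow_le_pow_right₀ (by norm_num) (by omega)
      set p : ℝ := 4 * (c + v + 1) * T k / P with hpdef
      obtain ⟨bad, h1, h2⟩ := scale_random E hind hE k (c * 2 ^ ((k + 2) / 2)) v (T k) hT (𝓑 k)
        (h𝓑1 k) p (by positivity) (by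
          intro n hn
          rw [mem_Ico] at hn
          have h3 : k < 2 ^ k := Nat.lt_two_pow_self
          have hlog : Nat.log 2 n = k := Nat.log_eq_of_pow_le_of_lt_pow hn.1 hn.2
          have h10 := hn0 n (by omega)
          rw [hlog] at h10
          refine le_trans ?_ h10
          have hn1 : (0 : ℝ) < n := by exact_mod_cast (by omega : 0 < n)
          have h5 : Real.sqrt n ≤ P := by
            refine le_trans (Real.sqrt_le_sqrt ?_) (half_ge_sqrt k)
            exact_mod_cast hn.2.le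
          have h6 : 0 < Real.sqrt n := Real.sqrt_pos.2 hn1
          rw [hpdef]
          exact div_le_div_of_nonneg_left (by positivity) h6 h5)
      refine ⟨bad, h1.trans (Real.exp_le_exp.2 ?_),
        fun _ ω hω A hA hs => h2 ω hω A (h𝓑2 k A hA) v le_rfl hs⟩
      have h3 : (c + v + 1) * P ≤ p * 2 ^ k / T k := by
        have h4 : p * 2 ^ k / T k = 4 * (c + v + 1) * (2 ^ k / P) := by
          rw [hpdef]; field_simp
        rw [h4]
        have h5 : P / 4 ≤ 2 ^ k / P := by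
          rw [div_le_div_iff₀ (by norm_num) hP0]
          linarith
        have h6 := mul_le_mul_of_nonneg_left h5 (by positivity : (0 : ℝ) ≤ 4 * (c + v + 1))
        linarith
      have h4 : ((c * 2 ^ ((k + 2) / 2) : ℕ) : ℝ) = c * P := by push_cast; rfl
      rw [h4]
      have hv0 : (0 : ℝ) ≤ v := Nat.cast_nonneg v
      have h7 : (k : ℝ) ≤ P := le_two_half k
      nlinarith
    · exact ⟨∅, by simpa using (Real.exp_pos _).le, fun h => absurd h hk0⟩
  choose bad hb1 hb2 using hk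
  have hsum : ∑' k, μ (bad k) ≠ ⊤ := by
    have h1 : ∀ k, μ (bad k) ≤ ENNReal.ofReal (Real.exp (-(k : ℝ))) := by
      intro k
      rw [← ofReal_measureReal (measure_ne_top μ _)]
      exact ENNReal.ofReal_le_ofReal (hb1 k)
    have h2 : Summable (fun k : ℕ => Real.exp (-(k : ℝ))) := Real.summable_exp_neg_nat
    exact ne_top_of_le_ne_top h2.tsum_ofReal_ne_top (ENNReal.tsum_le_tsum h1)
  filter_upwards [ae_eventually_notMem hsum] with ω hω
  filter_upwards [hω, eventually_ge_atTop n0] with k h1 h2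
  exact hb2 k h2 ω h1

open Classical in
theorem random_scales (R v T : ℕ) : ∃ C : ℝ, ∀ (Ω : Type) (_ : MeasurableSpace Ω)
    (μ : Measure Ω) (E : ℕ → Set Ω), iIndepSet E μ → (∀ n, MeasurableSet (E n)) →
    (∀ᶠ n : ℕ in atTop, C / Real.sqrt n ≤ μ.real (E n)) →
    ∀ᵐ ω ∂μ, ∀ᶠ k in atTop, ∀ A : Set ℕ, Calm R k A →
      (∀ s ∈ rset E ω, s ∈ Ico (2 ^ k) (2 ^ (k + 1)) → v ≤ rep A s) →
      T * ((Ico (2 ^ k) (2 ^ (k + 1))).filter (fun n => rep A n < v)).card ≤ 2 ^ k := by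
  obtain ⟨C, -, hC⟩ := random_scales_gen R v
  exact ⟨C * T, fun Ω _ μ E hind hE hp => hC (fun _ => T) Ω _ μ E hind hE hp⟩

/-- **Random targets, windows.** -/
theorem random_local (l g : ℕ) (hlg : Close l g) : ∃ (C : ℝ) (L : ℕ),
    ∀ (Ω : Type) (_ : MeasurableSpace Ω) (μ : Measure Ω) (E : ℕ → Set Ω), iIndepSet E μ →
      (∀ n, MeasurableSet (E n)) →
      (∀ᶠ n : ℕ in atTop, C / Real.sqrt n ≤ μ.real (E n)) →
      ∀ᵐ ω ∂μ, ∃ x0 : ℕ, ∀ (A : Set ℕ) (x : ℕ), x0 ≤ x →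
        (∃ s ∈ rset E ω, x ^ 2 ≤ s ∧ s ≤ L * x ^ 2 ∧ rep A s ≤ 2 * l - 2) ∨
        (∃ n, x ≤ n ∧ n ≤ L * x ^ 2 ∧ 2 * g + 2 ≤ rep A n) := by
  obtain ⟨T, L, hT1, hloc⟩ := local_of_scales l g hlg
  obtain ⟨C, hC⟩ := random_scales (2 * g + 1) (2 * l - 1) T
  refine ⟨C, L, ?_⟩
  intro Ω _ μ E hind hE hp
  filter_upwards [hC Ω _ μ E hind hE hp] with ω hω
  obtain ⟨k0, hk0⟩ := eventually_atTop.1 hω
  refine ⟨2 ^ k0, fun A x hx => ?_⟩
  have h1 : 1 ≤ 2 ^ k0 := Nat.one_le_two_pow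
  exact hloc (rset E ω) k0 hk0 A x (by omega) (by nlinarith)

open Classical in
/-- from the scales to densities -/
lemma density_of_scales (A : Set ℕ) (v : ℕ)
    (h : ∀ T : ℕ, 1 ≤ T → ∀ᶠ k in atTop,
      T * ((Ico (2 ^ k) (2 ^ (k + 1))).filter (fun n => rep A n < v)).card ≤ 2 ^ k) :
    Tendsto (fun x : ℕ => (((range x).filter (fun n => rep A n < v)).card : ℝ) / x) atTop
      (nhds 0) := by
  rw [Metric.tendsto_atTop]
  intro ε hε
  obtain ⟨T, hT⟩ := exists_nat_gt (4 / ε)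
  have hT0 : (0 : ℝ) < T := lt_trans (by positivity) hT
  have hT1 : 1 ≤ T := by exact_mod_cast hT0
  obtain ⟨k0, hk0⟩ := eventually_atTop.1 (h T hT1)
  obtain ⟨x0, hx0⟩ := exists_nat_gt (2 * (2 ^ k0 + 1) / ε)
  refine ⟨x0 + 2, fun x hx => ?_⟩
  have hxr : (0 : ℝ) < x := by exact_mod_cast (by omega : 0 < x)
  have key : ∀ K : ℕ, T * ((range (2 ^ K)).filter (fun n => rep A n < v)).card ≤
      T * 2 ^ k0 + 2 ^ K := by
    intro K
    induction K with
    | zero =>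
      have h1 : ((range (2 ^ 0)).filter (fun n => rep A n < v)).card ≤ 1 := by
        refine (card_filter_le _ _).trans ?_
        simp
      have h2 : 1 ≤ 2 ^ k0 := Nat.one_le_two_pow
      nlinarith
    | succ K ih =>
      rcases Nat.lt_or_ge K k0 with hK | hK
      · have h1 : ((range (2 ^ (K + 1))).filter (fun n => rep A n < v)).card ≤ 2 ^ k0 := by
          refine (card_filter_le _ _).trans ?_
          rw [card_range]
          exact Nat.pow_le_pow_right (by norm_num) hK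
        exact (Nat.mul_le_mul_left T h1).trans (Nat.le_add_right _ _)
      · have h1 := hk0 K hK
        have h2 : ((range (2 ^ (K + 1))).filter (fun n => rep A n < v)).card ≤
            ((range (2 ^ K)).filter (fun n => rep A n < v)).card +
            ((Ico (2 ^ K) (2 ^ (K + 1))).filter (fun n => rep A n < v)).card := by
          refine le_trans (card_le_card ?_) (card_union_le _ _)
          intro n hn
          rw [mem_filter, mem_range] at hn
          rw [mem_union, mem_filter, mem_filter, mem_range, mem_Ico]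
          by_cases h3 : n < 2 ^ K
          · exact Or.inl ⟨h3, hn.2⟩
          · exact Or.inr ⟨⟨by omega, hn.1⟩, hn.2⟩
        have h3 := Nat.mul_le_mul_left T h2
        rw [Nat.mul_add] at h3
        have h4 : 2 ^ (K + 1) = 2 * 2 ^ K := by rw [pow_succ]; ring
        omega
  have h1 := key (Nat.clog 2 x)
  have h2 : x ≤ 2 ^ Nat.clog 2 x := Nat.le_pow_clog (by norm_num) x
  have h3 : 2 ^ Nat.clog 2 x ≤ 2 * x := by
    have h4 : 2 ^ (Nat.clog 2 x - 1) < x := by
      have := Nat.pow_pred_clog_lt_self (b := 2) (by norm_num) (by omega : 1 < x)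
      simpa [Nat.pred_eq_sub_one] using this
    have h5 : 1 ≤ Nat.clog 2 x := Nat.clog_pos (by norm_num) (by omega)
    have h6 : 2 ^ Nat.clog 2 x = 2 * 2 ^ (Nat.clog 2 x - 1) := by
      rw [← pow_succ']; congr 1; omega
    omega
  have h4 : ((range x).filter (fun n => rep A n < v)).card ≤
      ((range (2 ^ Nat.clog 2 x)).filter (fun n => rep A n < v)).card :=
    card_le_card (filter_subset_filter _ (range_subset_range.2 h2))
  have h5 : (T : ℝ) * ((range x).filter (fun n => rep A n < v)).card ≤ T * 2 ^ k0 + 2 * x := by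
    have h6 : T * ((range x).filter (fun n => rep A n < v)).card ≤ T * 2 ^ k0 + 2 * x := by
      have := Nat.mul_le_mul_left T h4
      omega
    exact_mod_cast h6
  rw [Real.dist_eq, sub_zero, abs_of_nonneg (by positivity), div_lt_iff₀ hxr]
  have h7 : (x0 : ℝ) ≤ x := by exact_mod_cast (by omega : x0 ≤ x)
  rw [div_lt_iff₀ hε] at hT hx0
  have h8 : (2 : ℝ) ^ k0 + 1 ≤ ε * x / 2 := by nlinarith
  have h9 : (((range x).filter (fun n => rep A n < v)).card : ℝ) ≤ 2 ^ k0 + 2 * x / T := by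
    rw [← sub_le_iff_le_add', le_div_iff₀ hT0]
    linarith
  have h10 : 2 * (x : ℝ) / T ≤ ε * x / 2 := by
    rw [div_le_div_iff₀ hT0 (by norm_num)]
    nlinarith
  linarith

open Classical in
/-- **Random targets, densities.** -/
theorem random_density (E : ℕ → Set Ω) (hind : iIndepSet E μ) (hE : ∀ n, MeasurableSet (E n))
    (hp : Tendsto (fun n : ℕ => μ.real (E n) * Real.sqrt n) atTop atTop) :
    ∀ᵐ ω ∂μ,
      (∀ (A : Set ℕ) (R v : ℕ), (∀ n, rep A n ≤ R) →
        {s | s ∈ rset E ω ∧ rep A s < v}.Finite →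
        Tendsto (fun x : ℕ => (((range x).filter (fun n => rep A n < v)).card : ℝ) / x) atTop
          (nhds 0)) ∧
      (∀ l g : ℕ, Close l g → ∀ A : Set ℕ, {s | s ∈ rset E ω ∧ rep A s ≤ 2 * l - 2}.Finite →
        {n | 2 * g + 2 ≤ rep A n}.Infinite) := by
  have hsc : ∀ q : ℕ × ℕ × ℕ, ∀ᵐ ω ∂μ, ∀ᶠ k in atTop, ∀ A : Set ℕ, Calm q.1 k A →
      (∀ s ∈ rset E ω, s ∈ Ico (2 ^ k) (2 ^ (k + 1)) → q.2.1 ≤ rep A s) →
      (q.2.2 + 1) * ((Ico (2 ^ k) (2 ^ (k + 1))).filter (fun n => rep A n < q.2.1)).card ≤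
        2 ^ k := by
    rintro ⟨R, v, T⟩
    obtain ⟨C, hC⟩ := random_scales R v (T + 1)
    apply hC Ω _ μ E hind hE
    filter_upwards [hp.eventually_ge_atTop C, eventually_ge_atTop 1] with n h1 h2
    have hn : (1 : ℝ) ≤ n := by exact_mod_cast h2
    have hs : 0 < Real.sqrt n := Real.sqrt_pos.2 (by linarith)
    rwa [div_le_iff₀ hs]
  rw [← ae_all_iff] at hsc
  filter_upwards [hsc] with ω hω
  have hkey : ∀ (A : Set ℕ) (R n0 v : ℕ), (∀ n, n0 ≤ n → rep A n ≤ R) →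
      {s | s ∈ rset E ω ∧ rep A s < v}.Finite → ∀ T : ℕ, 1 ≤ T → ∀ᶠ k in atTop,
      T * ((Ico (2 ^ k) (2 ^ (k + 1))).filter (fun n => rep A n < v)).card ≤ 2 ^ k := by
    intro A R n0 v hA hfin T hT
    obtain ⟨n1, hn1⟩ : ∃ n1, ∀ s ∈ rset E ω, n1 ≤ s → v ≤ rep A s := by
      obtain ⟨b, hb⟩ := hfin.bddAbove
      refine ⟨b + 1, fun s hs h => ?_⟩
      by_contra hcon
      push Not at hcon
      have := hb ⟨hs, hcon⟩
      omega
    filter_upwards [hω (R, v, T - 1), eventually_ge_atTop n1, calm_of_eventually A R n0 hA]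
      with k h1 h2 h5
    have h3 := h1 A h5 (by
      intro s hs hsI
      apply hn1 s hs
      have h4 := (mem_Ico.1 hsI).1
      have h5 : k < 2 ^ k := Nat.lt_two_pow_self
      omega)
    have h4 : T - 1 + 1 = T := by omega
    rwa [h4] at h3
  refine ⟨fun A R v hA hfin => density_of_scales A v
    (hkey A R 0 v (fun n _ => hA n) hfin), ?_⟩
  intro l g hlg A hfin
  obtain ⟨T0, hT0, h0⟩ := large_of_scales l g hlg
  apply h0 A
  rintro ⟨n0, hn0⟩
  have hl : 1 ≤ l := hlg.1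
  refine hkey A (2 * g + 1) n0 (2 * l - 1) hn0 (hfin.subset ?_) T0 hT0
  rintro s ⟨h1, h2⟩
  exact ⟨h1, by omega⟩

end Pool.Agent.H38.SP
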