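import Pool.Agent.H38.SP.B
import Pool.Agent.H38.SP.S8.Y940.CT.Iter

/-!
# The number of the sets which may occur at one scale
-/

set_option autoImplicit false

open Finset

namespace Pool.Agent.H38.SP

open Pool.Agent.Y940.CT (Free bounded_containers)
open Pool.Agent.Y940.RS (pairs mem_pairs)

/-- `r_A(n) ≤ R` for all `n` between `x` and `2 ^ (k + 2)`, for some `x ≤ 2 ^ (k / 2)` -/
def Calm (R k : ℕ) (A : Set ℕ) : Prop :=
  ∃ x, x ^ 2 ≤ 2 ^ k ∧ ∀ n, x ≤ n → n < 2 ^ (k + 2) → rep A n ≤ R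

lemma pairs_le_rep (A : Set ℕ) (F : Finset ℕ) (hF : ∀ a ∈ F, a ∈ A) (σ : ℕ) :
    (pairs F σ).card ≤ rep A σ := by
  classical
  have hfin : {p : ℕ × ℕ | p.1 ∈ A ∧ p.2 ∈ A ∧ p.1 + p.2 = σ}.Finite := by
    apply Set.Finite.subset (Finset.finite_toSet (antidiagonal σ))
    rintro ⟨a, b⟩ ⟨-, -, h⟩
    rw [mem_coe, HasAntidiagonal.mem_antidiagonal]
    exact h
  unfold rep
  have h1 : (((pairs F σ).image (fun a => (a, σ - a)) : Finset (ℕ × ℕ)) : Set (ℕ × ℕ)) ⊆
      {p : ℕ × ℕ | p.1 ∈ A ∧ p.2 ∈ A ∧ p.1 + p.2 = σ} := by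
    intro p hp
    rw [mem_coe, mem_image] at hp
    obtain ⟨a, ha, rfl⟩ := hp
    obtain ⟨h1, h2, h3⟩ := mem_pairs.1 ha
    exact ⟨hF _ h1, hF _ h3, by simp only; omega⟩
  have h2 := Set.ncard_le_ncard h1 hfin
  rwa [Set.ncard_coe_finset, card_image_of_injective _ (by
    intro a b h
    exact (Prod.mk.inj h).1)] at h2

/-- **The number of the sets which may occur at one scale.** -/
theorem calm_count (R : ℕ) : ∃ c : ℕ, ∀ k : ℕ, ∃ 𝓑 : Finset (Finset ℕ),
    (𝓑.card : ℝ) ≤ Real.exp ((c * 2 ^ ((k + 2) / 2) : ℕ) : ℝ) ∧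
      ∀ A : Set ℕ, Calm R k A → ∃ B ∈ 𝓑, ∀ a < 2 ^ (k + 1), a ∈ A ↔ a ∈ B := by
  classical
  obtain ⟨C, hC, hcov⟩ := bounded_containers (R + 1) (by omega)
  obtain ⟨c0, hc0⟩ := exists_nat_ge (2 * C)
  refine ⟨c0 + 1, fun k => ?_⟩
  obtain ⟨𝒞, h1, h2, h3⟩ := hcov (2 ^ (k + 1)) Nat.one_le_two_pow
  set P := 2 ^ ((k + 2) / 2) with hP
  have hsq : Real.sqrt ((2 ^ (k + 1) : ℕ) : ℝ) ≤ (P : ℝ) := by
    rw [hP]; push_cast
    exact half_ge_sqrt k
  set 𝓕 : Finset (Finset ℕ) := 𝒞.biUnion (fun D => D.powerset) with h𝓕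
  have h𝓕c : (𝓕.card : ℝ) ≤ Real.exp (2 * C * P) := by
    have h4 : 𝓕.card ≤ ∑ D ∈ 𝒞, D.powerset.card := card_biUnion_le
    have h5 : (𝓕.card : ℝ) ≤ ∑ D ∈ 𝒞, (D.powerset.card : ℝ) := by exact_mod_cast h4
    have h6 : ∀ D ∈ 𝒞, (D.powerset.card : ℝ) ≤ Real.exp (C * P) := by
      intro D hD
      rw [card_powerset]
      push_cast
      calc (2 : ℝ) ^ D.card ≤ (Real.exp 1) ^ D.card := by
            apply pow_le_pow_left₀ (by norm_num)
            have := Real.add_one_le_exp (1 : ℝ)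
            linarith
        _ = Real.exp D.card := by rw [← Real.exp_nat_mul, mul_one]
        _ ≤ Real.exp (C * P) := by
            apply Real.exp_le_exp.2
            exact (h2 D hD).2.trans (mul_le_mul_of_nonneg_left hsq hC.le)
    calc (𝓕.card : ℝ) ≤ ∑ D ∈ 𝒞, Real.exp (C * P) := h5.trans (sum_le_sum h6)
      _ = 𝒞.card * Real.exp (C * P) := by rw [sum_const, nsmul_eq_mul]
      _ ≤ Real.exp (C * P) * Real.exp (C * P) := by
          apply mul_le_mul_of_nonneg_right _ (Real.exp_pos _).le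
          exact h1.trans (Real.exp_le_exp.2 (mul_le_mul_of_nonneg_left hsq hC.le))
      _ = Real.exp (2 * C * P) := by rw [← Real.exp_add]; ring_nf
  refine ⟨((range (2 ^ ((k + 1) / 2))).powerset ×ˢ 𝓕).image (fun q => q.1 ∪ q.2), ?_, ?_⟩
  · have h4 : (((range (2 ^ ((k + 1) / 2))).powerset ×ˢ 𝓕).image (fun q => q.1 ∪ q.2)).card ≤
        2 ^ (2 ^ ((k + 1) / 2)) * 𝓕.card := by
      refine card_image_le.trans ?_
      rw [card_product, card_powerset, card_range]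
    have h5 : ((((range (2 ^ ((k + 1) / 2))).powerset ×ˢ 𝓕).image (fun q => q.1 ∪ q.2)).card : ℝ) ≤
        2 ^ (2 ^ ((k + 1) / 2)) * 𝓕.card := by exact_mod_cast h4
    refine h5.trans ?_
    have h6 : (2 : ℝ) ^ (2 ^ ((k + 1) / 2)) ≤ Real.exp P := by
      calc (2 : ℝ) ^ (2 ^ ((k + 1) / 2)) ≤ (Real.exp 1) ^ (2 ^ ((k + 1) / 2)) := by
            apply pow_le_pow_left₀ (by norm_num)
            have := Real.add_one_le_exp (1 : ℝ)
            linarith
        _ = Real.exp ((2 ^ ((k + 1) / 2) : ℕ) : ℝ) := by rw [← Real.exp_nat_mul, mul_one]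
        _ ≤ Real.exp P := by
            apply Real.exp_le_exp.2
            have : 2 ^ ((k + 1) / 2) ≤ P := Nat.pow_le_pow_right (by norm_num) (by omega)
            exact_mod_cast this
    calc (2 : ℝ) ^ (2 ^ ((k + 1) / 2)) * 𝓕.card ≤ Real.exp P * Real.exp (2 * C * P) :=
          mul_le_mul h6 h𝓕c (Nat.cast_nonneg _) (Real.exp_pos _).le
      _ = Real.exp (P + 2 * C * P) := by rw [← Real.exp_add]
      _ ≤ Real.exp (((c0 + 1) * P : ℕ) : ℝ) := by
          apply Real.exp_le_exp.2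
          push_cast
          have hP0 : (0 : ℝ) ≤ P := Nat.cast_nonneg _
          nlinarith
  · rintro A ⟨x, hx, hR⟩
    have hxk : x ≤ 2 ^ ((k + 1) / 2) := by
      have h4 : 2 ^ k ≤ (2 ^ ((k + 1) / 2)) ^ 2 := by
        rw [← pow_mul]
        exact Nat.pow_le_pow_right (by norm_num) (by omega)
      exact (Nat.pow_le_pow_iff_left two_ne_zero).1 (hx.trans h4)
    set B0 := (range x).filter (· ∈ A) with hB0
    set B1 := (Ico x (2 ^ (k + 1))).filter (· ∈ A) with hB1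
    have hfree : Free (R + 1) B1 := by
      intro σ
      rcases (pairs B1 σ).eq_empty_or_nonempty with h0 | ⟨a, ha⟩
      · rw [h0]; simp
      · obtain ⟨h4, h5, h6⟩ := mem_pairs.1 ha
        rw [hB1, mem_filter, mem_Ico] at h4 h6
        have h7 := pairs_le_rep A B1 (fun a ha => (mem_filter.1 ha).2) σ
        have h8 : 2 ^ (k + 2) = 2 * 2 ^ (k + 1) := by rw [pow_succ 2 (k + 1)]; ring
        have h9 := hR σ (by omega) (by omega)
        omega
    obtain ⟨D, hD, hBD⟩ := h3 B1 ⟨fun a ha => by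
      rw [mem_range]
      have := (mem_Ico.1 (mem_filter.1 ha).1).2
      omega, hfree⟩
    refine ⟨B0 ∪ B1, mem_image.2 ⟨(B0, B1), ?_, rfl⟩, ?_⟩
    · rw [mem_product, mem_powerset, h𝓕, mem_biUnion]
      refine ⟨fun a ha => ?_, D, hD, mem_powerset.2 hBD⟩
      rw [mem_range]
      simp only at ha
      have := mem_range.1 (mem_filter.1 ha).1
      omega
    · intro a ha
      rw [mem_union, hB0, hB1, mem_filter, mem_filter, mem_range, mem_Ico]
      constructor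
      · intro h
        by_cases h4 : a < x
        · exact Or.inl ⟨h4, h⟩
        · exact Or.inr ⟨⟨by omega, ha⟩, h⟩
      · rintro (h | h)
        · exact h.2
        · exact h.2

end Pool.Agent.H38.SP
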