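import Pool.Agent.H38.SP.H

/-!
# Random targets: power savings
-/

set_option autoImplicit false

open Finset Filter MeasureTheory ProbabilityTheory

namespace Pool.Agent.H38.SP

open Classical in
/-- the sum over the scales -/
lemma sum_scales (A : Set ℕ) (v k0 : ℕ) (a b : ℝ) (ha : 0 < a) (hb : 4 / 3 ≤ b)
    (h : ∀ k, k0 ≤ k →
      (((Ico (2 ^ k) (2 ^ (k + 1))).filter (fun n => rep A n < v)).card : ℝ) ≤ a * b ^ k) (K : ℕ) :
    (((range (2 ^ K)).filter (fun n => rep A n < v)).card : ℝ) ≤ 2 ^ k0 + 3 * a * b ^ K := by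
  have hb0 : (0 : ℝ) < b := by linarith
  induction K with
  | zero =>
    have h1 : ((range (2 ^ 0)).filter (fun n => rep A n < v)).card ≤ 1 := by
      refine (card_filter_le _ _).trans ?_
      simp
    have h2 : (((range (2 ^ 0)).filter (fun n => rep A n < v)).card : ℝ) ≤ 1 := by exact_mod_cast h1
    have h3 : (1 : ℝ) ≤ 2 ^ k0 := one_le_pow₀ (by norm_num)
    have h4 : 0 ≤ 3 * a * b ^ 0 := by positivity
    linarith
  | succ K ih =>
    rcases Nat.lt_or_ge K k0 with hK | hK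
    · have h1 : ((range (2 ^ (K + 1))).filter (fun n => rep A n < v)).card ≤ 2 ^ k0 := by
        refine (card_filter_le _ _).trans ?_
        rw [card_range]
        exact Nat.pow_le_pow_right (by norm_num) hK
      have h2 : (((range (2 ^ (K + 1))).filter (fun n => rep A n < v)).card : ℝ) ≤ 2 ^ k0 := by
        exact_mod_cast h1
      have h4 : 0 ≤ 3 * a * b ^ (K + 1) := by positivity
      linarith
    · have h1 := h K hK
      have h2 : ((range (2 ^ (K + 1))).filter (fun n => rep A n < v)).card ≤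
          ((range (2 ^ K)).filter (fun n => rep A n < v)).card +
          ((Ico (2 ^ K) (2 ^ (K + 1))).filter (fun n => rep A n < v)).card := by
        refine le_trans (card_le_card ?_) (card_union_le _ _)
        intro n hn
        rw [mem_filter, mem_range] at hn
        rw [mem_union, mem_filter, mem_filter, mem_range, mem_Ico]
        by_cases h3 : n < 2 ^ K
        · exact Or.inl ⟨h3, hn.2⟩
        · exact Or.inr ⟨⟨by omega, hn.1⟩, hn.2⟩
      have h3 : (((range (2 ^ (K + 1))).filter (fun n => rep A n < v)).card : ℝ) ≤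
          ((range (2 ^ K)).filter (fun n => rep A n < v)).card +
          ((Ico (2 ^ K) (2 ^ (K + 1))).filter (fun n => rep A n < v)).card := by exact_mod_cast h2
      have h4 : 0 < a * b ^ K := by positivity
      have h5 : b ^ (K + 1) = b ^ K * b := pow_succ b K
      have h6 : a * b ^ K * (4 / 3) ≤ a * b ^ K * b := mul_le_mul_of_nonneg_left hb h4.le
      rw [h5]
      linarith

open Classical in
/-- **Random targets, power savings.** -/
theorem random_power (R v : ℕ) (δ θ : ℝ) (hδ : 0 < δ) (hθ : 0 < θ) (hθ2 : θ ≤ 1 / 2) :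
    ∃ C : ℝ, ∀ (Ω : Type) (_ : MeasurableSpace Ω) (μ : Measure Ω) (E : ℕ → Set Ω),
      iIndepSet E μ → (∀ n, MeasurableSet (E n)) →
      (∀ᶠ n : ℕ in atTop, δ * (n : ℝ) ^ (θ - 1 / 2) ≤ μ.real (E n)) →
      ∀ᵐ ω ∂μ, ∀ A : Set ℕ, (∀ᶠ n in atTop, rep A n ≤ R) →
        {s | s ∈ rset E ω ∧ rep A s < v}.Finite →
        ∀ᶠ x : ℕ in atTop, (((range x).filter (fun n => rep A n < v)).card : ℝ) ≤
          C * (x : ℝ) ^ (1 - θ) := by
  obtain ⟨C0, hC0, hmain⟩ := random_scales_gen R v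
  set c2 : ℝ := δ / C0 with hc2
  have hc20 : 0 < c2 := by positivity
  set T : ℕ → ℕ := fun k => ⌊c2 * (2 : ℝ) ^ (θ * k)⌋₊ with hT
  refine ⟨1 + 12 / c2, ?_⟩
  intro Ω _ μ E hind hE hp
  have h0 := hmain T Ω _ μ E hind hE (by
    filter_upwards [hp, eventually_ge_atTop 1] with n h1 h2
    refine le_trans ?_ h1
    have hn : (0 : ℝ) < n := by exact_mod_cast h2
    have hs : 0 < Real.sqrt n := Real.sqrt_pos.2 hn
    rw [div_le_iff₀ hs]
    have h3 : (T (Nat.log 2 n) : ℝ) ≤ c2 * (2 : ℝ) ^ (θ * (Nat.log 2 n : ℕ)) :=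
      Nat.floor_le (by positivity)
    have h4 : (2 : ℝ) ^ (θ * (Nat.log 2 n : ℕ)) ≤ (n : ℝ) ^ θ := by
      rw [mul_comm, Real.rpow_mul (by norm_num)]
      apply Real.rpow_le_rpow (by positivity) _ hθ.le
      rw [Real.rpow_natCast]
      exact_mod_cast Nat.pow_log_le_self 2 (by omega)
    have h5 : δ * (n : ℝ) ^ (θ - 1 / 2) * Real.sqrt n = δ * (n : ℝ) ^ θ := by
      rw [Real.sqrt_eq_rpow, mul_assoc, ← Real.rpow_add hn]
      congr 2
      ring
    rw [h5]
    calc C0 * (T (Nat.log 2 n) : ℝ) ≤ C0 * (c2 * (n : ℝ) ^ θ) := by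
          apply mul_le_mul_of_nonneg_left _ hC0.le
          exact h3.trans (mul_le_mul_of_nonneg_left h4 hc20.le)
      _ = δ * (n : ℝ) ^ θ := by rw [hc2]; field_simp)
  filter_upwards [h0] with ω hω A hA hfin
  obtain ⟨n0, hn0⟩ := eventually_atTop.1 hA
  obtain ⟨n1, hn1⟩ : ∃ n1, ∀ s ∈ rset E ω, n1 ≤ s → v ≤ rep A s := by
    obtain ⟨b, hb⟩ := hfin.bddAbove
    refine ⟨b + 1, fun s hs h => ?_⟩
    by_contra hcon
    push Not at hcon
    have := hb ⟨hs, hcon⟩
    omega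
  -- the scales
  have hbig : ∀ᶠ k : ℕ in atTop, 1 ≤ c2 * (2 : ℝ) ^ (θ * k) := by
    obtain ⟨k1, hk1⟩ := exists_nat_gt (2 / (θ * c2))
    filter_upwards [eventually_ge_atTop k1] with k hk
    have h1 : (k1 : ℝ) ≤ k := by exact_mod_cast hk
    have h3 : (2 : ℝ) ^ (θ * k) = Real.exp (Real.log 2 * (θ * k)) := by
      rw [Real.rpow_def_of_pos (by norm_num)]
    have h4 := Real.add_one_le_exp (Real.log 2 * (θ * k))
    have h5 : (1 / 2 : ℝ) ≤ Real.log 2 := by linarith [Real.log_two_gt_d9]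
    have h6 : (0 : ℝ) ≤ θ * k := by positivity
    rw [div_lt_iff₀ (by positivity)] at hk1
    rw [h3]
    have h7 : θ * k / 2 ≤ Real.exp (Real.log 2 * (θ * k)) := by nlinarith
    have h8 : 2 ≤ k * (θ * c2) := by
      refine hk1.le.trans ?_
      exact mul_le_mul_of_nonneg_right h1 (by positivity)
    nlinarith
  obtain ⟨k0, hk0⟩ := eventually_atTop.1 ((hω.and hbig).and ((calm_of_eventually A R n0 hn0).and
    (eventually_ge_atTop n1)))
  have hscale : ∀ k, k0 ≤ k →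
      (((Ico (2 ^ k) (2 ^ (k + 1))).filter (fun n => rep A n < v)).card : ℝ) ≤
        (2 / c2) * ((2 : ℝ) ^ (1 - θ)) ^ k := by
    intro k hk
    obtain ⟨⟨h1, h2⟩, h3, h4⟩ := hk0 k hk
    have h5 := h1 A h3 (by
      intro s hs hsI
      apply hn1 s hs
      have h4' := (mem_Ico.1 hsI).1
      have h5 : k < 2 ^ k := Nat.lt_two_pow_self
      omega)
    set N := ((Ico (2 ^ k) (2 ^ (k + 1))).filter (fun n => rep A n < v)).card with hN
    have h6 : (T k : ℝ) * N ≤ 2 ^ k := by exact_mod_cast h5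
    have h7 : c2 * (2 : ℝ) ^ (θ * k) / 2 ≤ T k := by
      have h8 : c2 * (2 : ℝ) ^ (θ * k) < T k + 1 := Nat.lt_floor_add_one _
      have h9 : (1 : ℝ) ≤ T k := by
        have : 1 ≤ T k := Nat.le_floor (by simpa using h2)
        exact_mod_cast this
      linarith
    have h8 : c2 * (2 : ℝ) ^ (θ * k) / 2 * N ≤ 2 ^ k :=
      (mul_le_mul_of_nonneg_right h7 (Nat.cast_nonneg _)).trans h6
    have h9 : (2 : ℝ) ^ k = (2 : ℝ) ^ (θ * k) * ((2 : ℝ) ^ (1 - θ)) ^ k := by
      rw [← Real.rpow_natCast ((2 : ℝ) ^ (1 - θ)) k, ← Real.rpow_mul (by norm_num),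
        ← Real.rpow_add (by norm_num), ← Real.rpow_natCast]
      congr 1
      ring
    have h10 : 0 < (2 : ℝ) ^ (θ * k) := by positivity
    have h11 : (N : ℝ) * (2 : ℝ) ^ (θ * k) ≤
        ((2 / c2) * ((2 : ℝ) ^ (1 - θ)) ^ k) * (2 : ℝ) ^ (θ * k) := by
      have h12 : (2 / c2) * ((2 : ℝ) ^ (1 - θ)) ^ k * (2 : ℝ) ^ (θ * k) = (2 / c2) * 2 ^ k := by
        rw [h9]; ring
      rw [h12]
      have h13 : (2 / c2) * (c2 * (2 : ℝ) ^ (θ * k) / 2 * N) ≤ (2 / c2) * 2 ^ k :=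
        mul_le_mul_of_nonneg_left h8 (by positivity)
      have h14 : (2 / c2) * (c2 * (2 : ℝ) ^ (θ * k) / 2 * N) = N * (2 : ℝ) ^ (θ * k) := by
        field_simp
      linarith
    exact le_of_mul_le_mul_right h11 h10
  have hb : 4 / 3 ≤ (2 : ℝ) ^ (1 - θ) := by
    calc (4 / 3 : ℝ) ≤ Real.sqrt 2 := by
          apply Real.le_sqrt_of_sq_le; norm_num
      _ = (2 : ℝ) ^ (1 / 2 : ℝ) := Real.sqrt_eq_rpow 2
      _ ≤ (2 : ℝ) ^ (1 - θ) := by
          apply Real.rpow_le_rpow_of_exponent_le (by norm_num)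
          linarith
  have hlim : ∀ᶠ x : ℕ in atTop, (2 : ℝ) ^ k0 ≤ (x : ℝ) ^ (1 - θ) := by
    have h1 : Tendsto (fun x : ℕ => (x : ℝ) ^ (1 - θ)) atTop atTop :=
      (tendsto_rpow_atTop (by linarith)).comp tendsto_natCast_atTop_atTop
    exact h1.eventually_ge_atTop _
  filter_upwards [hlim, eventually_ge_atTop 2] with x hx1 hx2
  have hxr : (0 : ℝ) < x := by exact_mod_cast (by omega : 0 < x)
  have h1 := sum_scales A v k0 (2 / c2) _ (by positivity) hb hscale (Nat.clog 2 x)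
  have h2 : x ≤ 2 ^ Nat.clog 2 x := Nat.le_pow_clog (by norm_num) x
  have h3 : 2 ^ Nat.clog 2 x ≤ 2 * x := by
    have h4 : 2 ^ (Nat.clog 2 x - 1) < x := by
      have := Nat.pow_pred_clog_lt_self (b := 2) (by norm_num) (by omega : 1 < x)
      simpa [Nat.pred_eq_sub_one] using this
    have h5 : 1 ≤ Nat.clog 2 x := Nat.clog_pos (by norm_num) (by omega)
    have h6 : 2 ^ Nat.clog 2 x = 2 * 2 ^ (Nat.clog 2 x - 1) := by
      rw [← pow_succ']; congr 1; omega
    omega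
  have h4 : (((range x).filter (fun n => rep A n < v)).card : ℝ) ≤
      ((range (2 ^ Nat.clog 2 x)).filter (fun n => rep A n < v)).card := by
    exact_mod_cast card_le_card (filter_subset_filter _ (range_subset_range.2 h2))
  have h5 : ((2 : ℝ) ^ (1 - θ)) ^ (Nat.clog 2 x) ≤ 2 * (x : ℝ) ^ (1 - θ) := by
    have h6 : ((2 : ℝ) ^ (1 - θ)) ^ (Nat.clog 2 x) = ((2 : ℝ) ^ (Nat.clog 2 x)) ^ (1 - θ) := by
      rw [← Real.rpow_natCast, ← Real.rpow_natCast, ← Real.rpow_mul (by norm_num),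
        ← Real.rpow_mul (by norm_num), mul_comm]
    rw [h6]
    have h7 : (2 : ℝ) ^ (Nat.clog 2 x) ≤ 2 * x := by exact_mod_cast h3
    calc ((2 : ℝ) ^ (Nat.clog 2 x)) ^ (1 - θ) ≤ (2 * (x : ℝ)) ^ (1 - θ) :=
          Real.rpow_le_rpow (by positivity) h7 (by linarith)
      _ = 2 ^ (1 - θ) * (x : ℝ) ^ (1 - θ) := Real.mul_rpow (by norm_num) hxr.le
      _ ≤ 2 * (x : ℝ) ^ (1 - θ) := by
          apply mul_le_mul_of_nonneg_right _ (by positivity)
          calc (2 : ℝ) ^ (1 - θ) ≤ 2 ^ (1 : ℝ) :=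
                Real.rpow_le_rpow_of_exponent_le (by norm_num) (by linarith)
            _ = 2 := Real.rpow_one 2
  have h6 : 3 * (2 / c2) * ((2 : ℝ) ^ (1 - θ)) ^ (Nat.clog 2 x) ≤
      3 * (2 / c2) * (2 * (x : ℝ) ^ (1 - θ)) := mul_le_mul_of_nonneg_left h5 (by positivity)
  have h7 : 3 * (2 / c2) * (2 * (x : ℝ) ^ (1 - θ)) = 12 / c2 * (x : ℝ) ^ (1 - θ) := by ring
  linarith

end Pool.Agent.H38.SP
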